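import Pool.Agent.Lib.MP_71c87b_al.Irr

/-! The members of the variety that are generated by an arithmetic sequence. -/

namespace Pool.Agent.Lib.MP_71c87b_al.Arith

open Pool.Agent.Lib.MP_71c87b_al Pool.Agent.Lib.MP_71c87b_al.Irr

/-- The monoid generated by `a, a + d, …, a + x d`. -/
abbrev AP (a d x : ℕ) : AddSubmonoid ℕ := AddSubmonoid.closure {n | ∃ i, i ≤ x ∧ n = a + i * d}

variable {a d x : ℕ}

theorem gen_mem {i : ℕ} (h : i ≤ x) : a + i * d ∈ AP a d x :=
  AddSubmonoid.subset_closure ⟨i, h, rfl⟩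

theorem mem_of (k : ℕ) : ∀ j, j ≤ k * x → k * a + j * d ∈ AP a d x := by
  induction k with
  | zero => intro j hj; have : j = 0 := by omega
            subst this; simp
  | succ k ih =>
    intro j hj
    rw [Nat.succ_mul] at hj
    by_cases h : j ≤ x
    · have := (AP a d x).add_mem (ih 0 (Nat.zero_le _)) (gen_mem h)
      rwa [show k * a + 0 * d + (a + j * d) = (k + 1) * a + j * d by ring] at this
    · obtain ⟨c, rfl⟩ : ∃ c, j = c + x := ⟨j - x, by omega⟩
      have := (AP a d x).add_mem (ih c (by omega)) (gen_mem le_rfl)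
      rwa [show k * a + c * d + (a + x * d) = (k + 1) * a + (c + x) * d by ring] at this

theorem mem_iff {s : ℕ} : s ∈ AP a d x ↔ ∃ k j, j ≤ k * x ∧ s = k * a + j * d := by
  refine ⟨fun h => ?_, fun ⟨k, j, h, e⟩ => e ▸ mem_of k j h⟩
  induction h using AddSubmonoid.closure_induction with
  | mem s hs => obtain ⟨i, hi, rfl⟩ := hs; exact ⟨1, i, by omega, by ring⟩
  | zero => exact ⟨0, 0, by omega, by ring⟩
  | add s t _ _ hs ht =>
    obtain ⟨k, j, h, rfl⟩ := hs
    obtain ⟨k', j', h', rfl⟩ := ht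
    exact ⟨k + k', j + j', by rw [add_mul]; omega, by ring⟩

theorem AP_le {S : AddSubmonoid ℕ} (h : ∀ i, i ≤ x → a + i * d ∈ S) : AP a d x ≤ S :=
  AddSubmonoid.closure_le.2 fun _ ⟨i, hi, e⟩ => e ▸ h i hi

theorem coord (ha : 0 < a) (hc : Nat.Coprime a d) (s : ℕ) :
    ∃ i : ℕ, i < a ∧ ∃ k : ℤ, (s : ℤ) = i * d + k * a := by
  obtain ⟨u, v, h⟩ := Nat.isCoprime_iff_coprime.2 hc
  have ha' : (0 : ℤ) < a := by exact_mod_cast ha
  have h0 := Int.emod_nonneg (s * v) ha'.ne'
  have h1 := Int.emod_lt_of_pos (s * v) ha'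
  have h2 := Int.emod_add_mul_ediv (s * v) a
  refine ⟨(s * v % a).toNat, by omega, s * u + (s * v / a) * d, ?_⟩
  rw [Int.toNat_of_nonneg h0]
  linear_combination (-(s : ℤ)) * h - (d : ℤ) * h2

theorem lattice (ha : 0 < a) (hc : Nat.Coprime a d) {u w : ℤ} (h : u * d + w * a = 0) :
    ∃ t : ℤ, u = t * a ∧ w = -(t * d) := by
  have hd : (a : ℤ) ∣ u * d := ⟨-w, by linear_combination h⟩
  obtain ⟨t, rfl⟩ := (Nat.isCoprime_iff_coprime.2 hc).dvd_of_dvd_mul_right hd
  have ha' : (a : ℤ) ≠ 0 := by exact_mod_cast ha.ne'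
  exact ⟨t, mul_comm _ _, mul_right_cancel₀ ha' (by linear_combination h)⟩

theorem split (hc : Nat.Coprime a d) {i₁ i₂ i : ℕ} {k₁ k₂ l : ℤ} (h1 : i₁ < a) (h2 : i₂ < a)
    (h3 : i < a) (h : (i₁ * d + k₁ * a) + (i₂ * d + k₂ * a) = (i * d + l * a : ℤ)) :
    (i₁ + i₂ = i ∧ k₁ + k₂ = l) ∨ (i₁ + i₂ = i + a ∧ k₁ + k₂ + d = l) := by
  obtain ⟨t, e1, e2⟩ := lattice (u := i₁ + i₂ - i) (w := k₁ + k₂ - l) (by omega) hc
    (by linear_combination h)
  have ha' : (0 : ℤ) < a := by omega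
  have t1 : -1 < t := lt_of_mul_lt_mul_right (a := (a : ℤ)) (by omega) ha'.le
  have t2 : t < 2 := lt_of_mul_lt_mul_right (a := (a : ℤ)) (by omega) ha'.le
  obtain rfl | rfl : t = 0 ∨ t = 1 := by omega
  · left; omega
  · right; omega

theorem not_mem (hc : Nat.Coprime a d) {q j : ℕ} (hj : j < a) (h : q * x < j) :
    q * a + j * d ∉ AP a d x := by
  intro hm
  obtain ⟨k, j', h1, h2⟩ := mem_iff.1 hm
  have h2' : ((q * a + j * d : ℕ) : ℤ) = (k * a + j' * d : ℕ) := by rw [h2]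
  push_cast at h2'
  obtain ⟨t, e1, e2⟩ := lattice (u := j' - j) (w := k - q) (by omega) hc
    (by linear_combination -h2')
  have ha' : (0 : ℤ) < a := by omega
  have t1 : -1 < t := lt_of_mul_lt_mul_right (a := (a : ℤ)) (by omega) ha'.le
  have t2 : 0 ≤ t * a := mul_nonneg (by omega) ha'.le
  have t3 : 0 ≤ t * d := mul_nonneg (by omega) (by omega)
  have : k * x ≤ q * x := Nat.mul_le_mul_right _ (by omega)
  omega

theorem numerical (hx : 0 < x) (ha : 0 < a) (hc : Nat.Coprime a d) : IsNumerical (AP a d x) := by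
  refine (Set.finite_lt_nat (a * d + a * a)).subset fun s hs => ?_
  by_contra h
  have h' : a * d + a * a ≤ s := not_lt.1 h
  obtain ⟨i, hi, k, e⟩ := coord ha hc s
  have h1 : (i : ℤ) * d ≤ a * d := mul_le_mul_of_nonneg_right (by omega) (by omega)
  have h2 : ((a * d + a * a : ℕ) : ℤ) ≤ s := by exact_mod_cast h'
  push_cast at h2
  have h3 : (a : ℤ) ≤ k := le_of_mul_le_mul_right (a := (a : ℤ)) (by omega) (by omega)
  obtain ⟨n, rfl⟩ := Int.eq_ofNat_of_zero_le (by omega : 0 ≤ k)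
  have h4 : n ≤ n * x := Nat.le_mul_of_pos_right _ hx
  refine hs (mem_iff.2 ⟨n, i, by omega, ?_⟩)
  have : (s : ℤ) = (n * a + i * d : ℕ) := by push_cast; linear_combination e
  exact_mod_cast this

theorem red {S : AddSubmonoid ℕ} {q j : ℕ}
    (s2 : ∀ t ∈ AP a d x, t < q * a + j * d → t ∈ S) (s3 : q * a + j * d ∉ S) {s i : ℕ} {k : ℤ}
    (hs : s ∈ S) (h0 : s ≠ 0) (e : (s : ℤ) = i * d + k * a) (hij : i ≤ j) {K : ℕ}
    (hK : (K : ℤ) + k = q) (hle : j - i ≤ K * x) : False := by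
  obtain ⟨c, rfl⟩ := Nat.exists_eq_add_of_le hij
  have h1 : ((s + (K * a + c * d) : ℕ) : ℤ) = (q * a + (i + c) * d : ℕ) := by
    push_cast; linear_combination e + (a : ℤ) * hK
  have h2 : s + (K * a + c * d) = q * a + (i + c) * d := by exact_mod_cast h1
  exact s3 (h2 ▸ S.add_mem hs (s2 _ (mem_of K c (by omega)) (by omega)))

theorem mem_of_gens {S : AddSubmonoid ℕ} {B : Finset ℕ} (hB : ∀ b ∈ B, b ∈ S) {y : ℕ}
    (h : y ∈ AddSubmonoid.closure (B : Set ℕ)) : y ∈ gens S → y ∈ B := by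
  have hle : AddSubmonoid.closure (B : Set ℕ) ≤ S := AddSubmonoid.closure_le.2 hB
  induction h using AddSubmonoid.closure_induction with
  | mem s hs => exact fun _ => hs
  | zero => exact fun h => absurd rfl h.2.1
  | add s t hs ht ihs iht =>
    intro h
    rcases h.2.2 s (hle hs) t (hle ht) rfl with rfl | rfl
    · rw [zero_add] at h ⊢; exact iht h
    · rw [add_zero] at h ⊢; exact ihs h

/-- The top gluing of a complete intersection, seen from one generator `p`. -/
theorem top {S : AddSubmonoid ℕ} (hS : IsCI S) {p q : ℕ} (hp : p ∈ gens S) (hq : q ∈ gens S)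
    (hpq : p ≠ q) : ∃ (B C : Finset ℕ) (u v : ℕ), p ∈ B ∧ Disjoint B C ∧
      (∀ n ∈ gens S, n ∈ B ∨ n ∈ C) ∧ (∀ n ∈ C, n ∈ gens S) ∧ u ≠ 1 ∧ v ≠ 1 ∧
      (∀ b ∈ B, u ∣ b) ∧ (∀ c ∈ C, v ∣ c) ∧ Nat.lcm u v ∈ AddSubmonoid.closure (C : Set ℕ) := by
  have key : ∀ {B C : Finset ℕ}, Glued C → Disjoint B C → (∀ n ∈ B, n ∈ gens S) →
      (∀ n ∈ C, n ∈ gens S) →
      Nat.lcm (B.gcd id) (C.gcd id) ∈ AddSubmonoid.closure (B : Set ℕ) →
      Nat.lcm (B.gcd id) (C.gcd id) ∈ AddSubmonoid.closure (C : Set ℕ) → B.gcd id ≠ 1 := by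
    intro B C gC hd sB sC hB hC e
    rw [e, Nat.lcm_one_left] at hB hC
    obtain ⟨c, hc, hle⟩ := exists_le_of_mem hC gC.gcd_pos.ne'
    have : C.gcd id = c := le_antisymm (gC.gcd_le hc) hle
    rw [this] at hB
    exact Finset.disjoint_left.1 hd (mem_of_gens (fun b hb => (sB b hb).1) hB (sC c hc)) hc
  have h := hS.glued
  have hm : ∀ n, n ∈ (gens_finite S).toFinset ↔ n ∈ gens S := fun n => Set.Finite.mem_toFinset _
  generalize (gens_finite S).toFinset = A at h hm
  cases h with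
  | single c _ =>
    have h1 := Finset.mem_singleton.1 ((hm p).2 hp)
    have h2 := Finset.mem_singleton.1 ((hm q).2 hq)
    omega
  | glue B C gB gC hd hB hC =>
    have sB : ∀ n ∈ B, n ∈ gens S := fun n hn => (hm n).1 (Finset.mem_union_left _ hn)
    have sC : ∀ n ∈ C, n ∈ gens S := fun n hn => (hm n).1 (Finset.mem_union_right _ hn)
    have uB := key gC hd sB sC hB hC
    have uC := key gB hd.symm sC sB (Nat.lcm_comm _ _ ▸ hC) (Nat.lcm_comm _ _ ▸ hB)
    rcases Finset.mem_union.1 ((hm p).2 hp) with h | h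
    · exact ⟨B, C, _, _, h, hd, fun n hn => Finset.mem_union.1 ((hm n).2 hn), sC, uB, uC,
        fun b hb => Finset.gcd_dvd (f := id) hb, fun c hc => Finset.gcd_dvd (f := id) hc, hC⟩
    · exact ⟨C, B, _, _, h, hd.symm, fun n hn => (Finset.mem_union.1 ((hm n).2 hn)).symm, sB, uC,
        uB, fun b hb => Finset.gcd_dvd (f := id) hb, fun c hc => Finset.gcd_dvd (f := id) hc,
        Nat.lcm_comm _ _ ▸ hB⟩

theorem unit_of (hc : Nat.Coprime a d) {w : ℕ} (i : ℕ) (h1 : w ∣ a + i * d) (h2 : w ∣ d) :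
    w = 1 :=
  Nat.eq_one_of_dvd_coprimes hc ((Nat.dvd_add_left (h2.mul_left i)).1 h1) h2

theorem dvd_step (hc : Nat.Coprime a d) {w : ℕ} (i c : ℕ) (h1 : w ∣ a + i * d)
    (h2 : w ∣ c * d) : w ∣ c := by
  refine Nat.Coprime.dvd_of_dvd_mul_right ?_ h2
  exact unit_of hc i ((Nat.gcd_dvd_left w d).trans h1) (Nat.gcd_dvd_right w d)

/-- Three consecutive terms among the minimal generators of a complete intersection. -/
theorem three (hc : Nat.Coprime a d) (hd : 0 < d) {S : AddSubmonoid ℕ} (hS : IsCI S)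
    (g0 : a + 0 * d ∈ gens S) (g1 : a + 1 * d ∈ gens S) (g2 : a + 2 * d ∈ gens S) :
    2 ∣ a ∧ a + 3 * d ∉ gens S ∧
      (3 * d ∈ gens S → ∃ c ∈ S, c ≠ 0 ∧ c ≤ 6 ∧ c ≠ a) := by
  obtain ⟨B, C, u, v, h0, hdis, hall, sC, hu, hv, dB, dC, hl⟩ := top hS g0 g1 (by omega)
  have cons : ∀ {w : ℕ} (i : ℕ), w ∣ a + i * d → w ∣ a + (i + 1) * d → w = 1 := fun i h1 h2 => by
    rw [show a + (i + 1) * d = a + i * d + d by ring] at h2
    exact unit_of hc i h1 ((Nat.dvd_add_right h1).1 h2)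
  have two : ∀ {w : ℕ} (i : ℕ), w ≠ 1 → w ∣ a + i * d → w ∣ a + (i + 2) * d → w = 2 :=
    fun i hw h1 h2 => by
      rw [show a + (i + 2) * d = a + i * d + 2 * d by ring] at h2
      exact ((Nat.dvd_prime Nat.prime_two).1
        (dvd_step hc i 2 h1 ((Nat.dvd_add_right h1).1 h2))).resolve_left hw
  have h1 : a + 1 * d ∈ C := (hall _ g1).resolve_left fun h => hu (cons 0 (dB _ h0) (dB _ h))
  have h2 : a + 2 * d ∈ B := (hall _ g2).resolve_right fun h => hv (cons 1 (dC _ h1) (dC _ h))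
  have u2 : u = 2 := two 0 hu (dB _ h0) (dB _ h2)
  subst u2
  have a2 := dB _ h0
  have nd : ¬ 2 ∣ d := fun h => absurd (unit_of hc 0 a2 h) (by norm_num)
  refine ⟨by omega, fun g3 => ?_, fun g3 => ?_⟩
  · rcases hall _ g3 with h | h
    · have := dB _ h
      omega
    · have := two 1 hv (dC _ h1) (dC _ h)
      subst this
      have := dC _ h1
      omega
  · rcases hall _ g3 with h | h
    · have := dB _ h
      omega
    · have : v = 3 := ((Nat.dvd_prime Nat.prime_three).1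
        (dvd_step hc 1 3 (dC _ h1) (dC _ h))).resolve_left hv
      subst this
      obtain ⟨c, hcC, hle⟩ := exists_le_of_mem hl (by norm_num)
      refine ⟨c, (sC c hcC).1, (sC c hcC).2.1, hle, fun e => ?_⟩
      subst e
      exact Finset.disjoint_left.1 hdis (by simpa using h0) hcC

/-- Short sequences. -/
theorem neg_short (hc : Nat.Coprime a d) (hd : 0 < d) (hx : 2 ≤ x) (hxa : x + 2 ≤ a)
    (h : AP a d x ∈ VCI) : x = 2 ∧ 2 ∣ a := by
  set q := (a - 2) / x with hq
  have q1 : q * x ≤ a - 2 := Nat.div_mul_le_self _ _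
  have q2 : a - 2 < q * x + x := Nat.lt_div_mul_add (by omega)
  have q3 : 1 ≤ q := (Nat.le_div_iff_mul_le (by omega)).2 (by omega)
  have q4 : x ≤ q * x := Nat.le_mul_of_pos_left _ q3
  obtain ⟨S, s1, s2, s3⟩ := (mem_VCI.1 h).2 _ (not_mem hc (q := q) (j := a - 1) (by omega)
    (by omega))
  have big : ∀ i, a - 1 - q * x ≤ i → i ≤ a - 1 → i * d ∉ S := fun i h1 h2 hs =>
    red s2 s3 hs (Nat.mul_pos (by omega) hd).ne' (i := i) (k := 0)
      (by push_cast; ring) h2 (K := q) (by ring) (by omega)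
  have pos : ∀ s ∈ S, s ≠ 0 → ∀ (i : ℕ) (k : ℤ), i < a → (s : ℤ) = i * d + k * a → 1 ≤ k := by
    intro s hs h0 i k hi e
    by_contra hk
    rcases (by omega : k = 0 ∨ k < 0) with rfl | hk'
    · have e' : s = i * d := by
        have : (s : ℤ) = (i * d : ℕ) := by push_cast; linear_combination e
        exact_mod_cast this
      subst e'
      have hi0 : 0 < i := Nat.pos_of_ne_zero fun e => h0 (by rw [e, zero_mul])
      by_cases hr : a - 1 - q * x ≤ i
      · exact big i hr (by omega) hs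
      · set r := a - 1 - q * x
        have t1 := Nat.div_add_mod (r + i - 1) i
        have t2 := Nat.mod_lt (r + i - 1) hi0
        refine big (i * ((r + i - 1) / i)) (by omega) (by omega) ?_
        have := S.nsmul_mem hs ((r + i - 1) / i)
        rwa [smul_eq_mul, show (r + i - 1) / i * (i * d) = i * ((r + i - 1) / i) * d by ring]
          at this
    · obtain ⟨n, hn⟩ := Int.eq_ofNat_of_zero_le (by omega : 0 ≤ -k - 1)
      refine red s2 s3 hs h0 e (by omega) (K := q + 1 + n)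
        (by push_cast; omega) ?_
      have : (q + 1 + n) * x = q * x + x + n * x := by ring
      omega
  have gen : ∀ i, i ≤ x → a + i * d ∈ gens S := fun i hi => by
    have l1 : a ≤ q * a := Nat.le_mul_of_pos_left _ q3
    have l2 : i * d < (a - 1) * d := Nat.mul_lt_mul_of_pos_right (by omega) hd
    refine ⟨s2 _ (gen_mem hi) (by omega), by omega, fun y hy z hz e => ?_⟩
    by_contra hne
    push Not at hne
    obtain ⟨i₁, a1, k₁, e1⟩ := coord (by omega) hc y
    obtain ⟨i₂, a2, k₂, e2⟩ := coord (by omega) hc z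
    have p1 := pos y hy hne.1 _ _ a1 e1
    have p2 := pos z hz hne.2 _ _ a2 e2
    have e' : ((a + i * d : ℕ) : ℤ) = (y + z : ℕ) := by rw [e]
    push_cast at e'
    have := split hc (i := i) (k₁ := k₁) (k₂ := k₂) (l := 1) a1 a2 (by omega)
      (by linear_combination -e' - e1 - e2)
    omega
  obtain ⟨r1, r2, -⟩ := three hc hd s1 (gen 0 (by omega)) (gen 1 (by omega)) (gen 2 hx)
  refine ⟨by_contra fun e => r2 (gen 3 (by omega)), r1⟩

/-- Full sequences. -/
theorem neg_full (hc : Nat.Coprime a d) (hd : 2 ≤ d) (hxa : x + 1 = a) (ha : 5 ≤ a)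
    (h5 : ¬ (a = 5 ∧ d = 2)) (h6 : ¬ (a = 6 ∧ d = 5)) (h : AP a d x ∈ VCI) : False := by
  have nd : 2 ∣ a → ¬ 2 ∣ d := fun h1 h2 =>
    absurd (Nat.eq_one_of_dvd_coprimes hc h1 h2) (by norm_num)
  have n3 : 3 ∣ a → ¬ 3 ∣ d := fun h1 h2 =>
    absurd (Nat.eq_one_of_dvd_coprimes hc h1 h2) (by norm_num)
  obtain ⟨f, hf⟩ : ∃ f, a = 2 * f + 1 ∨ a = 2 * f + 2 := ⟨(a - 1) / 2, by omega⟩
  obtain ⟨S, s1, s2, s3⟩ := (mem_VCI.1 h).2 _ (not_mem hc (q := 0) (j := 2 * f) (by omega)
    (by omega))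
  have lt : ∀ i, i ≤ 2 ∨ (i = 3 ∧ 2 ∣ a) → a + i * d < 0 * a + 2 * f * d := by
    intro i hi
    obtain ⟨c, hc'⟩ : ∃ c, 2 * f = c + i := ⟨2 * f - i, by omega⟩
    have : a < c * d := by
      by_cases h8 : 10 ≤ a
      · have : c * 2 ≤ c * d := Nat.mul_le_mul_left _ hd
        rcases hf with hf | hf
        · omega
        · have : c * 3 ≤ c * d := Nat.mul_le_mul_left _ (by omega)
          omega
      · have hc3 : c ≤ 8 := by omega
        have d6 : a = 6 → 7 ≤ d := by
          rintro rfl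
          have := nd (by norm_num)
          have := n3 (by norm_num)
          omega
        have d8 : a = 8 → 3 ≤ d := by
          rintro rfl
          have := nd (by norm_num)
          omega
        clear nd n3
        obtain rfl | rfl | rfl | rfl | rfl : a = 5 ∨ a = 6 ∨ a = 7 ∨ a = 8 ∨ a = 9 := by omega
        all_goals interval_cases c <;> omega
    rw [hc', add_mul]; omega
  have mem : ∀ i, i ≤ 2 ∨ (i = 3 ∧ 2 ∣ a) → a + i * d ∈ S := fun i hi =>
    s2 _ (gen_mem (by omega)) (lt i hi)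
  have aS : a ∈ S := by simpa using mem 0 (by omega)
  have n1 : 1 * d ∉ S := fun hs => s3 (by
    have := S.nsmul_mem hs (2 * f)
    rwa [smul_eq_mul, show 2 * f * (1 * d) = 0 * a + 2 * f * d by ring] at this)
  have n2 : 2 * d ∉ S := fun hs => s3 (by
    have := S.nsmul_mem hs f
    rwa [smul_eq_mul, show f * (2 * d) = 0 * a + 2 * f * d by ring] at this)
  have pos : ∀ s ∈ S, s ≠ 0 → ∀ (i : ℕ) (k : ℤ), i < a → (s : ℤ) = i * d + k * a →
      (i ≤ 2 * f ∧ (1 ≤ k ∨ (k = 0 ∧ 3 ≤ i ∧ (i = 3 → 3 * d ∈ S)))) ∨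
        (i = 2 * f + 1 ∧ a < s) := by
    intro s hs h0 i k hi e
    by_cases hj : i ≤ 2 * f
    · refine Or.inl ⟨hj, ?_⟩
      rcases (by omega : 1 ≤ k ∨ k = 0 ∨ k < 0) with hk | rfl | hk
      · exact Or.inl hk
      · have e' : s = i * d := by
          have : (s : ℤ) = (i * d : ℕ) := by push_cast; linear_combination e
          exact_mod_cast this
        subst e'
        refine Or.inr ⟨rfl, ?_, fun e => e ▸ hs⟩
        by_contra h3
        obtain rfl | rfl | rfl : i = 0 ∨ i = 1 ∨ i = 2 := by omega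
        exacts [h0 (zero_mul _), n1 hs, n2 hs]
      · obtain ⟨n, hn⟩ := Int.eq_ofNat_of_zero_le (by omega : 0 ≤ -k - 1)
        refine (red s2 s3 hs h0 e hj (K := n + 1)
          (by push_cast; omega) ?_).elim
        have : (n + 1) * x = n * x + x := by ring
        omega
    · have hi' : i = 2 * f + 1 := by omega
      have ha' : a = 2 * f + 2 := by omega
      refine Or.inr ⟨hi', ?_⟩
      have e2 : (2 * s : ℤ) = 2 * f * d + (d + 2 * k) * a := by
        rw [e, hi', ha']; push_cast; ring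
      by_cases hk : 0 < d + 2 * k
      · have b1 : (0 : ℤ) < (d + 2 * k) * a := mul_pos hk (by omega)
        have b2 : (f : ℤ) * 3 ≤ f * d := mul_le_mul_of_nonneg_left (by omega) (by omega)
        have b3 : (2 * f * d : ℤ) = 2 * (f * d) := by ring
        omega
      · obtain ⟨n, hn⟩ := Int.eq_ofNat_of_zero_le (by omega : 0 ≤ -(d + 2 * k))
        have e3 : ((s + s + n * a : ℕ) : ℤ) = (0 * a + 2 * f * d : ℕ) := by
          push_cast; linear_combination e2 - (a : ℤ) * hn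
        have e4 : s + s + n * a = 0 * a + 2 * f * d := by exact_mod_cast e3
        exact (s3 (e4 ▸ step aS (S.add_mem hs hs) n)).elim
  have gen : ∀ l i : ℕ, l * a + i * d ∈ S → (l = 1 ∧ (i ≤ 2 ∨ (i = 3 ∧ 3 * d ∉ S))) ∨
      (l = 0 ∧ i = 3) → l * a + i * d ∈ gens S := fun l i hS hl => by
    refine ⟨hS, by rcases hl with ⟨rfl, -⟩ | ⟨rfl, rfl⟩ <;> omega, fun y hy z hz e => ?_⟩
    by_contra hne
    push Not at hne
    obtain ⟨i₁, a1, k₁, e1⟩ := coord (by omega) hc y
    obtain ⟨i₂, a2, k₂, e2⟩ := coord (by omega) hc z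
    have p1 := pos y hy hne.1 _ _ a1 e1
    have p2 := pos z hz hne.2 _ _ a2 e2
    have e' : ((l * a + i * d : ℕ) : ℤ) = (y + z : ℕ) := by rw [e]
    push_cast at e'
    have sp := split hc (i := i) (k₁ := k₁) (k₂ := k₂) (l := l) a1 a2 (by omega)
      (by linear_combination -e' - e1 - e2)
    have la : (l : ℤ) * a ≤ a := by
      rcases hl with ⟨rfl, -⟩ | ⟨rfl, -⟩ <;> simp
    have far : ∀ (y z j : ℕ) (k : ℤ), (l : ℤ) * a + i * d = y + z → a < y →
        (z : ℤ) = j * d + k * a → j = i + 1 → 0 ≤ k → False := by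
      intro y z j k e hy ez hj hk
      have : 0 ≤ k * a := mul_nonneg hk (by omega)
      subst hj
      push_cast at ez
      have : ((i : ℤ) + 1) * d = i * d + d := by ring
      omega
    rcases p1 with ⟨b1, p1⟩ | ⟨b1, p1⟩ <;> rcases p2 with ⟨b2, p2⟩ | ⟨b2, p2⟩
    · by_cases h3 : 3 * d ∈ S
      · simp only [h3, not_true_eq_false, and_false, or_false] at hl
        omega
      · simp only [h3, imp_false] at p1 p2
        omega
    · exact far z y i₁ k₁ (by omega) p2 e1 (by omega) (by omega)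
    · exact far y z i₂ k₂ e' p1 e2 (by omega) (by omega)
    · omega
  have gen1 : ∀ i, a + i * d ∈ S → (i ≤ 2 ∨ (i = 3 ∧ 3 * d ∉ S)) → a + i * d ∈ gens S :=
    fun i h1 h2 => by
      have := gen 1 i (by rwa [one_mul]) (Or.inl ⟨rfl, h2⟩)
      rwa [one_mul] at this
  obtain ⟨r1, r2, r3⟩ := three hc (by omega) s1 (gen1 0 (mem 0 (by omega)) (by omega))
    (gen1 1 (mem 1 (by omega)) (by omega)) (gen1 2 (mem 2 (by omega)) (by omega))
  by_cases h3 : 3 * d ∈ S
  · have := gen 0 3 (by rwa [zero_mul, zero_add]) (Or.inr ⟨rfl, rfl⟩)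
    rw [zero_mul, zero_add] at this
    obtain ⟨c, c1, c2, c3, c4⟩ := r3 this
    obtain ⟨i, a1, k, e1⟩ := coord (by omega) hc c
    have b0 : (0 : ℤ) ≤ i * d := by positivity
    rcases pos c c1 c2 _ _ a1 e1 with ⟨-, hk | ⟨rfl, hi, -⟩⟩ | ⟨-, p⟩
    · have b1 : (1 : ℤ) * a ≤ k * a := mul_le_mul_of_nonneg_right hk (by omega)
      omega
    · have b1 : (3 : ℤ) * 3 ≤ i * d := mul_le_mul (by omega) (by omega) (by omega) (by omega)
      omega
    · omega
  · exact r2 (gen1 3 (mem 3 (Or.inr ⟨rfl, r1⟩)) (Or.inr ⟨rfl, h3⟩))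

theorem glued_triple {p q r : ℕ} (hp : p ≠ 0) (hq : q ≠ 0) (hr : r ≠ 0) (hpq : p ≠ q)
    (h2 : Nat.gcd p q = 2) (hodd : r % 2 = 1) (i j : ℕ) (e : 2 * r = i * p + j * q) :
    Glued ({p, q} ∪ {r}) := by
  have g : ({p, q} : Finset ℕ).gcd id = 2 := by
    rw [Finset.gcd_insert, Finset.gcd_singleton, gcd_eq_nat_gcd]; simpa using h2
  have g' : ({r} : Finset ℕ).gcd id = r := by simp
  have l : Nat.lcm 2 r = 2 * r :=
    Nat.Coprime.lcm_eq_mul ((Nat.coprime_two_left).2 (Nat.odd_iff.2 hodd))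
  have hp2 : 2 ∣ p := h2 ▸ Nat.gcd_dvd_left p q
  have hq2 : 2 ∣ q := h2 ▸ Nat.gcd_dvd_right p q
  refine Glued.glue _ _ (glued_pair hp hq hpq) (.single r hr) ?_ ?_ ?_
  · simp only [Finset.disjoint_singleton_right, Finset.mem_insert, Finset.mem_singleton]
    omega
  · rw [g, g', l, e]; exact mem_pair i j
  · rw [g, g', l, Finset.coe_singleton, AddSubmonoid.mem_closure_singleton]
    exact ⟨2, rfl⟩

theorem mem_triple {p q r : ℕ} (i j k : ℕ) {s : ℕ} (e : s = i * p + j * q + k * r) :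
    s ∈ AddSubmonoid.closure ((({p, q} ∪ {r} : Finset ℕ)) : Set ℕ) :=
  e ▸ add_mem (add_mem (AddSubmonoid.nsmul_mem _ (AddSubmonoid.subset_closure (by simp)) i)
    (AddSubmonoid.nsmul_mem _ (AddSubmonoid.subset_closure (by simp)) j))
    (AddSubmonoid.nsmul_mem _ (AddSubmonoid.subset_closure (by simp)) k)

theorem triple_le {p q r : ℕ} {T : AddSubmonoid ℕ} (hp : p ∈ T) (hq : q ∈ T) (hr : r ∈ T) :
    AddSubmonoid.closure ((({p, q} ∪ {r} : Finset ℕ)) : Set ℕ) ≤ T :=
  AddSubmonoid.closure_le.2 (by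
    intro s hs
    simp only [Finset.coe_union, Finset.coe_insert, Finset.coe_singleton, Set.mem_union,
      Set.mem_insert_iff, Set.mem_singleton_iff] at hs
    rcases hs with (rfl | rfl) | rfl
    exacts [hp, hq, hr])

theorem zero_mem' : a ∈ AP a d x := by simpa using gen_mem (a := a) (d := d) (Nat.zero_le x)

theorem pos_one (hc : Nat.Coprime a d) (hd : 0 < d) (ha : 0 < a) : AP a d 1 ∈ VCI := by
  refine mem_VCI.2 ⟨numerical (by omega) ha hc, fun g hg => ?_⟩
  refine (glued_pair (a := a) (b := a + 1 * d) (by omega) (by omega) (by omega)).sep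
    (fun t ht _ => AP_le (fun i hi => ?_) ht) fun e => hg (pair_le zero_mem' (gen_mem le_rfl) e)
  obtain rfl | rfl : i = 0 ∨ i = 1 := by omega
  · simpa using mem_pair (a := a) (b := a + 1 * d) 1 0
  · simpa using mem_pair (a := a) (b := a + 1 * d) 0 1

theorem pos_two (hc : Nat.Coprime a d) (hd : 0 < d) (ha : 0 < a) (h2 : 2 ∣ a) :
    AP a d 2 ∈ VCI := by
  have nd : ¬ 2 ∣ d := fun h => absurd (Nat.eq_one_of_dvd_coprimes hc h2 h) (by norm_num)
  have hg : Nat.gcd a (a + 2 * d) = 2 := by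
    refine Nat.dvd_antisymm (dvd_step hc 0 2 (by simpa using Nat.gcd_dvd_left _ _) ?_)
      (Nat.dvd_gcd h2 (by omega))
    exact (Nat.dvd_add_right (Nat.gcd_dvd_left _ _)).1 (Nat.gcd_dvd_right _ _)
  refine mem_VCI.2 ⟨numerical (by omega) ha hc, fun g hg' => ?_⟩
  refine (glued_triple (r := a + 1 * d) (by omega) (by omega) (by omega) (by omega) hg (by omega)
    1 1 (by ring)).sep (fun t ht _ => AP_le (fun i hi => ?_) ht) fun e =>
      hg' (triple_le zero_mem' (gen_mem le_rfl) (gen_mem (by omega)) e)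
  obtain rfl | rfl | rfl : i = 0 ∨ i = 1 ∨ i = 2 := by omega
  · exact mem_triple 1 0 0 (by ring)
  · exact mem_triple 0 0 1 (by ring)
  · exact mem_triple 0 1 0 (by ring)

theorem pos_ord (hx : 0 < x) (hxa : x + 1 = a) : AP a 1 x ∈ VCI := by
  refine mem_VCI.2 ⟨numerical hx (by omega) (Nat.coprime_one_right a), fun g hg => ?_⟩
  have hga : g < a := by
    by_contra h
    have h1 : 1 ≤ g / a := (Nat.le_div_iff_mul_le (by omega)).2 (by omega)
    have h2 : x ≤ g / a * x := Nat.le_mul_of_pos_left _ h1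
    have h3 := Nat.mod_lt g (by omega : 0 < a)
    exact hg (mem_iff.2 ⟨g / a, g % a, by omega, by rw [mul_one, Nat.div_add_mod']⟩)
  refine (Glued.single (g + 1) (by omega)).sep (fun t ht hlt => ?_) fun e => ?_
  · obtain ⟨k, j, h1, rfl⟩ := mem_iff.1 ht
    rcases Nat.eq_zero_or_pos k with rfl | hk
    · have : j = 0 := by omega
      subst this; simp
    · have : a ≤ k * a := Nat.le_mul_of_pos_left _ hk
      omega
  · obtain ⟨c, hc, hcg⟩ := exists_le_of_mem e fun e' => hg (e' ▸ zero_mem _)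
    rw [Finset.mem_singleton] at hc
    omega

theorem pos_four (hc : Nat.Coprime 4 d) (hd : 2 ≤ d) : AP 4 d 3 ∈ VCI := by
  have nd : ¬ 2 ∣ d := fun h =>
    absurd (Nat.eq_one_of_dvd_coprimes hc (by norm_num) h) (by norm_num)
  refine mem_VCI.2 ⟨numerical (by omega) (by omega) hc, fun g hg => ?_⟩
  by_cases h : g = 2 * d
  · refine (glued_pair (a := 4) (b := 4 + 1 * d) (by omega) (by omega) (by omega)).sep
      (fun t ht hlt => ?_) fun e => hg (pair_le zero_mem' (gen_mem (by omega)) e)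
    obtain ⟨k, j, h1, rfl⟩ := mem_iff.1 ht
    have hj : j < 2 := by
      by_contra hj
      have : 2 * d ≤ j * d := Nat.mul_le_mul_right _ (by omega)
      omega
    obtain rfl | rfl : j = 0 ∨ j = 1 := by omega
    · have := mem_pair (a := 4) (b := 4 + 1 * d) k 0
      rwa [show k * 4 + 0 * (4 + 1 * d) = k * 4 + 0 * d by omega] at this
    · have := mem_pair (a := 4) (b := 4 + 1 * d) (k - 1) 1
      rwa [show (k - 1) * 4 + 1 * (4 + 1 * d) = k * 4 + 1 * d by omega] at this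
  · have hgc : Nat.gcd 4 (2 * d) = 2 := by
      rw [show 4 = 2 * 2 by rfl, Nat.gcd_mul_left,
        (Nat.coprime_two_left.2 (Nat.odd_iff.2 (by omega : d % 2 = 1)) : Nat.gcd 2 d = 1)]
    have h2 : 2 * d + 2 * d ∈ AP 4 d 3 := mem_iff.2 ⟨d, 0, by omega, by omega⟩
    have h3 : ∀ t ∈ AP 4 d 3, t ≠ 0 → 2 * d + t ∈ AP 4 d 3 := fun t ht h0 => by
      obtain ⟨k, j, h1, rfl⟩ := mem_iff.1 ht
      by_cases hj : j + 2 ≤ k * 3
      · exact mem_iff.2 ⟨k, j + 2, hj, by ring⟩
      · have hk : k ≠ 0 := by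
          rintro rfl
          have : j = 0 := by omega
          subst this; simp at h0
        obtain ⟨c, rfl⟩ : ∃ c, j = c + 2 := ⟨j - 2, by omega⟩
        exact mem_iff.2 ⟨k + d, c, by omega, by ring⟩
    refine (glued_triple (r := 4 + 1 * d) (by omega) (by omega) (by omega) (by omega) hgc
      (by omega) 2 1 (by ring)).sep (fun t ht _ => AP_le (fun i hi => ?_) ht) fun e => ?_
    · obtain rfl | rfl | rfl | rfl : i = 0 ∨ i = 1 ∨ i = 2 ∨ i = 3 := by omega
      · exact mem_triple 1 0 0 (by ring)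
      · exact mem_triple 0 0 1 (by ring)
      · exact mem_triple 1 1 0 (by ring)
      · exact mem_triple 0 1 1 (by ring)
    · exact (triple_le (T := adj _ (2 * d) h2 h3) (Or.inl zero_mem') (Or.inr rfl)
        (Or.inl (gen_mem (by omega))) e).elim hg h

theorem pos_five : AP 5 2 4 ∈ VCI := by
  refine mem_VCI.2 ⟨numerical (by omega) (by omega) (by norm_num), fun g hg => ?_⟩
  have h8 : g ≤ 8 := by
    by_contra h
    exact hg (mem_iff.2 ⟨(g - 3 * g % 5 * 2) / 5, 3 * g % 5, by omega, by omega⟩)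
  refine (glued_pair (a := 5) (b := 5 + 1 * 2) (by omega) (by omega) (by omega)).sep
    (fun t ht hlt => ?_) fun e => hg (pair_le zero_mem' (gen_mem (by omega)) e)
  obtain ⟨k, j, h1, rfl⟩ := mem_iff.1 ht
  have := mem_pair (a := 5) (b := 5 + 1 * 2) (k - j) j
  rwa [show (k - j) * 5 + j * (5 + 1 * 2) = k * 5 + j * 2 by omega] at this

theorem pos_six : AP 6 5 5 ∈ VCI := by
  refine mem_VCI.2 ⟨numerical (by omega) (by omega) (by norm_num), fun g hg => ?_⟩
  by_cases h : g = 25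
  · subst h
    refine (glued_triple (p := 6) (q := 10) (r := 11) (by omega) (by omega) (by omega) (by omega)
      (by norm_num) (by omega) 2 1 (by ring)).sep (fun t ht _ => AP_le (fun i hi => ?_) ht)
      fun e => ?_
    · exact mem_triple (1 - i % 2) (i / 2) (i % 2) (by omega)
    · have key : ∀ s ∈ AddSubmonoid.closure ((({6, 10} ∪ {11} : Finset ℕ)) : Set ℕ),
          ∃ i j k, s = 6 * i + 10 * j + 11 * k := fun s hs => by
        induction hs using AddSubmonoid.closure_induction with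
        | mem s hs =>
          simp only [Finset.coe_union, Finset.coe_insert, Finset.coe_singleton, Set.mem_union,
            Set.mem_insert_iff, Set.mem_singleton_iff] at hs
          rcases hs with (rfl | rfl) | rfl
          exacts [⟨1, 0, 0, rfl⟩, ⟨0, 1, 0, rfl⟩, ⟨0, 0, 1, rfl⟩]
        | zero => exact ⟨0, 0, 0, rfl⟩
        | add s t _ _ hs ht =>
          obtain ⟨i, j, k, rfl⟩ := hs
          obtain ⟨i', j', k', rfl⟩ := ht
          exact ⟨i + i', j + j', k + k', by ring⟩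
      obtain ⟨i, j, k, h⟩ := key _ e
      obtain rfl | rfl | rfl : k = 0 ∨ k = 1 ∨ k = 2 := by omega
      all_goals obtain rfl | rfl | rfl : j = 0 ∨ j = 1 ∨ j = 2 := by omega
      all_goals omega
  · have h20 : g ≤ 20 := by
      by_contra h'
      have : g % 6 = 0 ∨ g % 6 = 1 ∨ g % 6 = 2 ∨ g % 6 = 3 ∨ g % 6 = 4 ∨ g % 6 = 5 := by omega
      rcases this with e | e | e | e | e | e
      · exact hg (mem_iff.2 ⟨g / 6, 0, by omega, by omega⟩)
      · exact hg (mem_iff.2 ⟨(g - 25) / 6, 5, by omega, by omega⟩)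
      · exact hg (mem_iff.2 ⟨(g - 20) / 6, 4, by omega, by omega⟩)
      · exact hg (mem_iff.2 ⟨(g - 15) / 6, 3, by omega, by omega⟩)
      · exact hg (mem_iff.2 ⟨(g - 10) / 6, 2, by omega, by omega⟩)
      · exact hg (mem_iff.2 ⟨(g - 5) / 6, 1, by omega, by omega⟩)
    refine (glued_triple (p := 6) (q := 6 + 2 * 5) (r := 6 + 1 * 5) (by omega) (by omega)
      (by omega) (by omega) (by norm_num) (by omega) 1 1 (by ring)).sep (fun t ht hlt => ?_)
      fun e => hg (triple_le zero_mem' (gen_mem (by omega)) (gen_mem (by omega)) e)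
    obtain ⟨k, j, h1, rfl⟩ := mem_iff.1 ht
    exact mem_triple (k - (j + 1) / 2) (j / 2) (j % 2) (by omega)

end Pool.Agent.Lib.MP_71c87b_al.Arith
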