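import Mathlib

/-!
# Numerical semigroups, complete intersections, Frobenius varieties and glued sets
-/

namespace Pool.Agent.Lib.MP_71c87b_al

/-- A numerical semigroup: a submonoid of the naturals with finite complement. -/
def IsNumerical (S : AddSubmonoid ℕ) : Prop := ((S : Set ℕ)ᶜ).Finite

/-- The minimal generators of `S`: the nonzero elements which are not a sum of two nonzero
elements of `S`. -/
def gens (S : AddSubmonoid ℕ) : Set ℕ :=
  {x | x ∈ S ∧ x ≠ 0 ∧ ∀ y ∈ S, ∀ z ∈ S, x = y + z → y = 0 ∨ z = 0}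

/-- `σ` is a presentation of `S`: it generates, as a congruence on the free commutative monoid
on the minimal generators, the kernel congruence of `a ↦ ∑ a_i n_i`. -/
def IsPresentation (S : AddSubmonoid ℕ) (σ : Set ((gens S →₀ ℕ) × (gens S →₀ ℕ))) : Prop :=
  addConGen (fun a b => (a, b) ∈ σ) = AddCon.ker (Finsupp.weight fun x : gens S => (x : ℕ))

/-- A complete intersection numerical semigroup: it has a presentation of least cardinality with
exactly `e(S) - 1` elements. -/
def IsCI (S : AddSubmonoid ℕ) : Prop :=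
  IsNumerical S ∧ ∃ σ, IsPresentation S σ ∧
    (∀ τ, IsPresentation S τ → σ.encard ≤ τ.encard) ∧ σ.encard + 1 = (gens S).encard

/-- A Frobenius variety: a nonempty family of numerical semigroups closed under intersection and
under adjoining the Frobenius number (the largest gap). -/
structure IsFrobeniusVariety (V : Set (AddSubmonoid ℕ)) : Prop where
  nonempty : V.Nonempty
  numerical : ∀ S ∈ V, IsNumerical S
  inter : ∀ S ∈ V, ∀ T ∈ V, S ⊓ T ∈ V
  frob : ∀ S ∈ V, ∀ f, IsGreatest (S : Set ℕ)ᶜ f →
    ∀ T : AddSubmonoid ℕ, (T : Set ℕ) = insert f (S : Set ℕ) → T ∈ V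

/-- The least Frobenius variety containing every complete intersection. -/
def VCI : Set (AddSubmonoid ℕ) :=
  ⋂₀ {V | IsFrobeniusVariety V ∧ ∀ S, IsCI S → S ∈ V}

/-- Glued finite sets of positive integers: singletons, and disjoint unions `B ∪ C` of glued sets
such that `lcm (gcd B) (gcd C)` lies in both monoids generated by `B` and by `C`. -/
inductive Glued : Finset ℕ → Prop
  | single (a : ℕ) : a ≠ 0 → Glued {a}
  | glue (B C : Finset ℕ) : Glued B → Glued C → Disjoint B C →
      Nat.lcm (B.gcd id) (C.gcd id) ∈ AddSubmonoid.closure (B : Set ℕ) →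
      Nat.lcm (B.gcd id) (C.gcd id) ∈ AddSubmonoid.closure (C : Set ℕ) → Glued (B ∪ C)

/-- A special gap of `T`: a gap `g` with `2 g ∈ T` and `g + t ∈ T` for every nonzero `t ∈ T`. -/
def IsSpecialGap (T : AddSubmonoid ℕ) (g : ℕ) : Prop :=
  g ∉ T ∧ 2 * g ∈ T ∧ ∀ t ∈ T, t ≠ 0 → g + t ∈ T

end Pool.Agent.Lib.MP_71c87b_al
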