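import Pool.Agent.Lib.MP_71c87b_al.Defs

/-! Irreducible numerical semigroups. -/

namespace Pool.Agent.Lib.MP_71c87b_al

/-- An irreducible numerical semigroup: it is not the intersection of two numerical semigroups
properly containing it. -/
def IsIrred (T : AddSubmonoid ℕ) : Prop :=
  IsNumerical T ∧ ∀ A B, IsNumerical A → IsNumerical B → T < A → T < B → A ⊓ B ≠ T

end Pool.Agent.Lib.MP_71c87b_al
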