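import Pool.Agent.Lib.MP_71c87b_al.Variety
import Pool.Agent.Lib.MP_71c87b_al.IrrDefs

/-! The irreducible members of the variety generated by complete intersections. -/

namespace Pool.Agent.Lib.MP_71c87b_al

namespace Irr

/-- adjoining an element `h` with `2 h` and all `h + t` inside -/
def adj (T : AddSubmonoid ℕ) (h : ℕ) (h2 : h + h ∈ T) (h3 : ∀ t ∈ T, t ≠ 0 → h + t ∈ T) :
    AddSubmonoid ℕ where
  carrier := {x | x ∈ T ∨ x = h}
  zero_mem' := Or.inl T.zero_mem
  add_mem' := by
    rintro a b (ha | rfl) (hb | rfl)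
    · exact Or.inl (T.add_mem ha hb)
    · by_cases e : a = 0
      · exact Or.inr (by omega)
      · exact Or.inl (add_comm b a ▸ h3 a ha e)
    · by_cases e : b = 0
      · exact Or.inr (by omega)
      · exact Or.inl (h3 b hb e)
    · exact Or.inl h2

lemma num_of_le {T U : AddSubmonoid ℕ} (hT : IsNumerical T) (h : T ≤ U) : IsNumerical U :=
  hT.subset (Set.compl_subset_compl.2 h)

variable {T : AddSubmonoid ℕ} {F : ℕ}

/-- an irreducible semigroup is maximal among those missing its Frobenius number -/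
lemma maximal (hT : IsIrred T) (hF : F ∉ T) (hb : ∀ x, F < x → x ∈ T) {U : AddSubmonoid ℕ}
    (hU : T ≤ U) (hFU : F ∉ U) : U = T := by
  by_contra hne
  have h0 : F ≠ 0 := fun e => hF (e ▸ T.zero_mem)
  have hB : T ≤ adj T F (hb _ (by omega)) fun t _ ht => hb _ (by omega) := fun x hx => Or.inl hx
  refine hT.2 U _ (num_of_le hT.1 hU) (num_of_le hT.1 hB) (lt_of_le_of_ne hU (Ne.symm hne))
    (lt_of_le_of_ne hB fun e => hF (e ▸ Or.inr rfl)) (le_antisymm ?_ (le_inf hU hB))
  rintro x ⟨h1, h2 | rfl⟩
  exacts [h2, absurd h1 hFU]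

/-- gaps other than `F / 2` are reflected into the semigroup -/
lemma reflect (hT : IsIrred T) (hF : F ∉ T) (hb : ∀ x, F < x → x ∈ T) (x : ℕ) (hx : x ∉ T)
    (h2 : 2 * x ≠ F) : F - x ∈ T := by
  have key : ∀ k x, F - x = k → x ∉ T → F < 2 * x → F - x ∈ T := by
    intro k
    induction k using Nat.strong_induction_on with
    | _ k ih =>
    intro x hk hx h2
    by_contra hc
    have hle : x ≤ F := not_lt.1 fun e => hx (hb x e)
    have h3 : ∀ t ∈ T, t ≠ 0 → x + t ∈ T := fun t ht h0 => by
      by_contra h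
      have hle' : x + t ≤ F := not_lt.1 fun e => h (hb _ e)
      have := ih (F - (x + t)) (by omega) (x + t) rfl h (by omega)
      exact hc (by
        rw [show F - x = F - (x + t) + t by omega]
        exact T.add_mem this ht)
    have hne : x ≠ F := fun e => hc (by rw [e, Nat.sub_self]; exact T.zero_mem)
    have e := maximal hT hF hb (U := adj T x (hb _ (by omega)) h3) (fun y hy => Or.inl hy)
      (by rintro (h | h); exacts [hF h, hne h.symm])
    exact hx (e ▸ Or.inr rfl)
  have hle : x ≤ F := not_lt.1 fun e => hx (hb x e)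
  rcases lt_or_gt_of_ne h2 with h | h
  · by_contra hc
    have := key _ (F - x) rfl hc (by omega)
    rw [show F - (F - x) = x by omega] at this
    exact hx this
  · exact key _ x rfl hx h

lemma glued_pair {a b : ℕ} (ha : a ≠ 0) (hb : b ≠ 0) (hab : a ≠ b) : Glued {a, b} := by
  have h := Glued.glue {a} {b} (.single a ha) (.single b hb) (by simpa using hab)
    (by
      obtain ⟨c, hc⟩ := Nat.dvd_lcm_left a b
      simp only [Finset.gcd_singleton, id, normalize_eq, Finset.coe_singleton,
        AddSubmonoid.mem_closure_singleton]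
      exact ⟨c, by rw [hc, smul_eq_mul, mul_comm]⟩)
    (by
      obtain ⟨c, hc⟩ := Nat.dvd_lcm_right a b
      simp only [Finset.gcd_singleton, id, normalize_eq, Finset.coe_singleton,
        AddSubmonoid.mem_closure_singleton]
      exact ⟨c, by rw [hc, smul_eq_mul, mul_comm]⟩)
  simpa using h

lemma mem_pair {a b : ℕ} (i j : ℕ) :
    i * a + j * b ∈ AddSubmonoid.closure (({a, b} : Finset ℕ) : Set ℕ) :=
  add_mem (AddSubmonoid.nsmul_mem _ (AddSubmonoid.subset_closure (by simp)) i)
    (AddSubmonoid.nsmul_mem _ (AddSubmonoid.subset_closure (by simp)) j)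

lemma pair_le {a b : ℕ} (ha : a ∈ T) (hb : b ∈ T) :
    AddSubmonoid.closure (({a, b} : Finset ℕ) : Set ℕ) ≤ T :=
  AddSubmonoid.closure_le.2 (by
    intro x hx
    simp only [Finset.coe_insert, Finset.coe_singleton, Set.mem_insert_iff,
      Set.mem_singleton_iff] at hx
    rcases hx with rfl | rfl
    exacts [ha, hb])

lemma step {m : ℕ} (hm : m ∈ T) {t : ℕ} (ht : t ∈ T) (k : ℕ) : t + k * m ∈ T :=
  T.add_mem ht (AddSubmonoid.nsmul_mem _ hm k)

lemma of_three (hT : IsNumerical T) (h3 : 3 ∈ T) : T ∈ VCI := by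
  refine mem_VCI.2 ⟨hT, fun g hg => ?_⟩
  have hg3 : g % 3 ≠ 0 := fun e => hg (by
    have := step h3 T.zero_mem (g / 3)
    rwa [show 0 + g / 3 * 3 = g by omega] at this)
  have hcl : ∀ t ∈ T, t < g → t % 3 ≠ g % 3 := fun t ht hlt e => hg (by
    have := step h3 ht ((g - t) / 3)
    rwa [show t + (g - t) / 3 * 3 = g by omega] at this)
  by_cases h : ∃ a, a ∈ T ∧ a < g ∧ a % 3 ≠ 0
  · classical
    obtain ⟨h1, h2, h4⟩ := Nat.find_spec h
    refine (glued_pair (a := 3) (b := Nat.find h) (by omega) (by omega) (by omega)).sep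
      (fun t ht hlt => ?_) fun e => hg (pair_le h3 h1 e)
    by_cases e : t % 3 = 0
    · have := mem_pair (a := 3) (b := Nat.find h) (t / 3) 0
      rwa [show t / 3 * 3 + 0 * Nat.find h = t by omega] at this
    · have h5 := Nat.find_min' h ⟨ht, hlt, e⟩
      have h6 := hcl t ht hlt
      have h7 := hcl _ h1 h2
      have := mem_pair (a := 3) (b := Nat.find h) ((t - Nat.find h) / 3) 1
      rwa [show (t - Nat.find h) / 3 * 3 + 1 * Nat.find h = t by omega] at this
  · refine (Glued.single 3 (by omega)).sep (fun t ht hlt => ?_) fun e => ?_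
    · have : t % 3 = 0 := by_contra fun e => h ⟨t, ht, hlt, e⟩
      rw [Finset.coe_singleton, AddSubmonoid.mem_closure_singleton]
      exact ⟨t / 3, by rw [smul_eq_mul]; omega⟩
    · rw [Finset.coe_singleton, AddSubmonoid.mem_closure_singleton] at e
      obtain ⟨n, hn⟩ := e
      rw [smul_eq_mul] at hn
      omega

lemma mem_457 {x : ℕ} : x ∈ AddSubmonoid.closure ({4, 5, 7} : Set ℕ) ↔
    x = 0 ∨ x = 4 ∨ x = 5 ∨ 7 ≤ x := by
  constructor
  · intro h
    induction h using AddSubmonoid.closure_induction with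
    | mem x hx => simp only [Set.mem_insert_iff, Set.mem_singleton_iff] at hx; omega
    | zero => omega
    | add x y _ _ hx hy => omega
  · intro h
    have h4 : 4 ∈ AddSubmonoid.closure ({4, 5, 7} : Set ℕ) := AddSubmonoid.subset_closure (by simp)
    have h5 : 5 ∈ AddSubmonoid.closure ({4, 5, 7} : Set ℕ) := AddSubmonoid.subset_closure (by simp)
    have h7 : 7 ∈ AddSubmonoid.closure ({4, 5, 7} : Set ℕ) := AddSubmonoid.subset_closure (by simp)
    have hr : x % 4 = 0 ∨ x % 4 = 1 ∨ x % 4 = 2 ∨ x % 4 = 3 := by omega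
    rcases hr with e | e | e | e
    · have := step h4 (zero_mem _) (x / 4)
      rwa [show 0 + x / 4 * 4 = x by omega] at this
    · have := step h4 h5 ((x - 5) / 4)
      rwa [show 5 + (x - 5) / 4 * 4 = x by omega] at this
    · have := step h4 (add_mem h5 h5) ((x - 10) / 4)
      rwa [show 5 + 5 + (x - 10) / 4 * 4 = x by omega] at this
    · have := step h4 h7 ((x - 7) / 4)
      rwa [show 7 + (x - 7) / 4 * 4 = x by omega] at this

lemma of_457 (hT : IsNumerical T) (h : T = AddSubmonoid.closure ({4, 5, 7} : Set ℕ)) :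
    T ∈ VCI := by
  refine mem_VCI.2 ⟨hT, fun g hg => ?_⟩
  subst h
  refine (glued_pair (a := 4) (b := 5) (by omega) (by omega) (by omega)).sep
    (fun t ht hlt => ?_) fun e => hg (pair_le (mem_457.2 (by omega)) (mem_457.2 (by omega)) e)
  rw [mem_457] at ht hg
  have : t = 0 ∨ t = 4 ∨ t = 5 := by omega
  rcases this with rfl | rfl | rfl
  exacts [zero_mem _, mem_pair 1 0, mem_pair 0 1]

lemma of_two (hT : IsNumerical T) (hF : F ∉ T) (hb : ∀ x, F < x → x ∈ T) (h2 : 2 ∈ T) :
    IsCI T := by
  have hodd : F % 2 = 1 := by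
    by_contra e
    have := step h2 T.zero_mem (F / 2)
    rw [show 0 + F / 2 * 2 = F by omega] at this
    exact hF this
  have e : AddSubmonoid.closure (({2, F + 2} : Finset ℕ) : Set ℕ) = T := by
    refine le_antisymm (pair_le h2 (hb _ (by omega))) fun x hx => ?_
    by_cases h : x % 2 = 0
    · have := mem_pair (a := 2) (b := F + 2) (x / 2) 0
      rwa [show x / 2 * 2 + 0 * (F + 2) = x by omega] at this
    · have hlt : F < x := by
        by_contra hc
        have := step h2 hx ((F - x) / 2)
        rw [show x + (F - x) / 2 * 2 = F by omega] at this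
        exact hF this
      have := mem_pair (a := 2) (b := F + 2) ((x - (F + 2)) / 2) 1
      rwa [show (x - (F + 2)) / 2 * 2 + 1 * (F + 2) = x by omega] at this
  have := (glued_pair (a := 2) (b := F + 2) (by omega) (by omega) (by omega)).isCI (e ▸ hT)
  rwa [e] at this

lemma not_glued_567 : ¬ Glued {5, 6, 7} := by
  intro h
  generalize hA : ({5, 6, 7} : Finset ℕ) = A at h
  cases h with
  | single a _ =>
    have := congrArg Finset.card hA
    simp at this
  | glue B C gB gC hd hB hC =>
    have key : ∀ B ∈ ({5, 6, 7} : Finset ℕ).powerset, ∀ C ∈ ({5, 6, 7} : Finset ℕ).powerset,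
        {5, 6, 7} = B ∪ C → Disjoint B C → B.Nonempty → C.Nonempty →
          Nat.lcm (B.gcd id) (C.gcd id) ∈ ({5, 6, 7} : Finset ℕ) ∧
            (Nat.lcm (B.gcd id) (C.gcd id) ∉ B ∨ Nat.lcm (B.gcd id) (C.gcd id) ∉ C) := by
      decide
    have sB : B ⊆ {5, 6, 7} := hA ▸ Finset.subset_union_left
    have sC : C ⊆ {5, 6, 7} := hA ▸ Finset.subset_union_right
    have small : ∀ D : Finset ℕ, D ⊆ {5, 6, 7} → ∀ x ∈ AddSubmonoid.closure (D : Set ℕ),
        x = 0 ∨ x ∈ D ∨ 10 ≤ x := fun D hD x hx => by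
      induction hx using AddSubmonoid.closure_induction with
      | mem x hx => exact Or.inr (Or.inl hx)
      | zero => exact Or.inl rfl
      | add x y _ _ hx hy =>
        rcases hx with rfl | hx | hx
        · simpa using hy
        · rcases hy with rfl | hy | hy
          · exact Or.inr (Or.inl hx)
          · have h1 := hD hx
            have h2 := hD hy
            simp only [Finset.mem_insert, Finset.mem_singleton] at h1 h2
            omega
          · omega
        · omega
    obtain ⟨h1, h2⟩ := key B (Finset.mem_powerset.2 sB) C (Finset.mem_powerset.2 sC) hA hd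
      gB.nonempty gC.nonempty
    simp only [Finset.mem_insert, Finset.mem_singleton] at h1
    rcases h2 with h2 | h2
    · rcases small B sB _ hB with e | e | e
      exacts [by omega, h2 e, by omega]
    · rcases small C sC _ hC with e | e | e
      exacts [by omega, h2 e, by omega]

/-- no complete intersection starts with `0, k + 1, ..., 2 k - 1` for `k ≥ 4` -/
lemma no_interval {S : AddSubmonoid ℕ} (hS : IsCI S) {k : ℕ} (hk : 4 ≤ k)
    (h1 : ∀ x ∈ S, x = 0 ∨ k + 1 ≤ x) (h2 : ∀ x, k + 1 ≤ x → x < 2 * k → x ∈ S) : False := by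
  have hsub : Finset.Ico (k + 1) (2 * k) ⊆ (gens_finite S).toFinset := fun x hx => by
    rw [Finset.mem_Ico] at hx
    rw [Set.Finite.mem_toFinset]
    refine ⟨h2 x hx.1 hx.2, by omega, fun y hy z hz e => ?_⟩
    have := h1 y hy
    have := h1 z hz
    omega
  have hp := hS.glued.two_pow (S := S) (fun x hx => (Set.Finite.mem_toFinset _).1 hx) (k + 1)
    (hsub (Finset.mem_Ico.2 ⟨le_rfl, by omega⟩))
  have hp' : 2 ^ (gens_finite S).toFinset.card ≤ 2 * (k + 1) :=
    (Nat.le_mul_of_pos_right _ hS.glued.gcd_pos).trans hp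
  have hc := Finset.card_le_card hsub
  rw [Nat.card_Ico] at hc
  rcases hk.eq_or_lt with rfl | hk
  · have hc' : (gens_finite S).toFinset.card ≤ 3 := by
      by_contra e
      have : 2 ^ 4 ≤ 2 ^ (gens_finite S).toFinset.card :=
        Nat.pow_le_pow_right (by omega) (by omega)
      omega
    have e := Finset.eq_of_subset_of_card_le hsub (by rw [Nat.card_Ico]; omega)
    have g := hS.glued
    rw [← e] at g
    exact not_glued_567 g
  · obtain ⟨j, rfl⟩ : ∃ j, k = j + 5 := ⟨k - 5, by omega⟩
    have a1 : 2 ^ (j + 4) ≤ 2 ^ (gens_finite S).toFinset.card :=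
      Nat.pow_le_pow_right (by omega) (by omega)
    have a2 : j < 2 ^ j := Nat.lt_two_pow_self
    rw [pow_add] at a1
    omega

theorem main (hT : IsIrred T) (h : T ∈ VCI) :
    IsCI T ∨ 3 ∈ T ∨ T = AddSubmonoid.closure ({4, 5, 7} : Set ℕ) := by
  classical
  by_cases h3 : 3 ∈ T
  · exact Or.inr (Or.inl h3)
  obtain ⟨F, hF, hmax⟩ := Set.Finite.exists_maximal hT.1 ⟨3, h3⟩
  have hb : ∀ x, F < x → x ∈ T := fun x hx => by_contra fun e => by
    have := hmax (y := x) e hx.le
    omega
  have hF3 : 3 ≤ F := not_lt.1 fun e => h3 (hb 3 e)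
  by_cases h2 : 2 ∈ T
  · exact Or.inl (of_two hT.1 hF hb h2)
  have h1 : 1 ∉ T := fun e => h2 (T.add_mem e e)
  obtain ⟨S, s1, s2, s3⟩ := (mem_VCI.1 h).2 F hF
  have hTS : trunc S F = T := maximal hT hF hb (fun t ht => by
    rcases lt_trichotomy t F with e | e | e
    exacts [Or.inl (s2 t ht e), absurd (e ▸ ht) hF, Or.inr e]) fun e => e.elim s3 (lt_irrefl _)
  have hST : S ≤ T := fun x hx => hTS ▸ Or.inl hx
  by_cases hgen : ∀ n ∈ gens T, n < F
  · left
    have : S = T := le_antisymm hST (by
      conv_lhs => rw [← closure_gens T]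
      exact AddSubmonoid.closure_le.2 fun n hn => s2 n hn.1 (hgen n hn))
    exact this ▸ s1
  push Not at hgen
  obtain ⟨n, hn, hFn⟩ := hgen
  have hFn' : F < n := lt_of_le_of_ne hFn fun e => hF (e ▸ hn.1)
  have hex : ∃ m, m ∈ T ∧ m ≠ 0 := ⟨n, hn.1, hn.2.1⟩
  obtain ⟨hm, hm0⟩ := Nat.find_spec hex
  have hmin : ∀ x ∈ T, x = 0 ∨ Nat.find hex ≤ x := fun x hx =>
    (eq_or_ne x 0).imp_right fun e => Nat.find_min' hex ⟨hx, e⟩
  generalize Nat.find hex = m at hm hm0 hmin
  have hm4 : 4 ≤ m := by
    by_contra e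
    have : m = 1 ∨ m = 2 ∨ m = 3 := by omega
    rcases this with rfl | rfl | rfl <;> contradiction
  have hmn : m ≤ n := (hmin n hn.1).resolve_left hn.2.1
  have hrf := reflect hT hF hb
  -- the Frobenius number is even and smaller than twice the multiplicity
  have hev : ∃ k, F = 2 * k ∧ k + 1 ≤ m := by
    rcases hmn.eq_or_lt with rfl | hlt
    · exfalso
      have := hmin _ (hrf 1 h1 (by omega))
      omega
    have hg : n - m ∉ T := fun e => by
      have := hn.2.2 m hm _ e (by omega)
      omega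
    by_cases e : 2 * (n - m) = F
    · exact ⟨n - m, e.symm, by omega⟩
    exfalso
    have hle : n - m ≤ F := not_lt.1 fun e => hg (hb _ e)
    have en : n = F + m := by
      have := hmin _ (hrf _ hg e)
      omega
    have ap : ∀ r, 0 < r → r < m → ∃ w, w % m = r ∧ m ≤ w ∧ (2 * (w - m) = F ∨ w = n) := by
      intro r hr hrm
      have hw : ∃ w, w ∈ T ∧ w % m = r := ⟨r + m * (F + 1), hb _ (by nlinarith), by
        rw [Nat.add_mul_mod_self_left, Nat.mod_eq_of_lt hrm]⟩
      obtain ⟨w1, w2⟩ := Nat.find_spec hw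
      have w3 : ∀ y, y < Nat.find hw → ¬ (y ∈ T ∧ y % m = r) := fun y => Nat.find_min hw
      generalize Nat.find hw = w at w1 w2 w3
      have w4 : m ≤ w := (hmin w w1).resolve_left (by rintro rfl; simp at w2; omega)
      have w5 : w - m ∉ T := fun e => w3 (w - m) (by omega)
        ⟨e, by rw [← Nat.mod_eq_sub_mod w4, w2]⟩
      refine ⟨w, w2, w4, ?_⟩
      by_cases e' : 2 * (w - m) = F
      · exact Or.inl e'
      right
      have hle' : w - m ≤ F := not_lt.1 fun e => w5 (hb _ e)
      have := hn.2.2 w w1 _ (hrf _ w5 e') (by omega)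
      omega
    obtain ⟨a, a1, a2, a3⟩ := ap 1 (by omega) (by omega)
    obtain ⟨b, b1, b2, b3⟩ := ap 2 (by omega) (by omega)
    obtain ⟨c, c1, c2, c3⟩ := ap 3 (by omega) (by omega)
    have hab : a ≠ b := by rintro rfl; omega
    have hac : a ≠ c := by rintro rfl; omega
    have hbc : b ≠ c := by rintro rfl; omega
    omega
  obtain ⟨k, rfl, hk⟩ := hev
  have hint : ∀ x, k + 1 ≤ x → x < 2 * k → x ∈ T := fun x hx hx' => by
    have hg : 2 * k - x ∉ T := fun e => by
      have := hmin _ e
      omega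
    have := hrf _ hg (by omega)
    rwa [show 2 * k - (2 * k - x) = x by omega] at this
  have hk3 : 3 ≤ k := by
    by_contra e
    exact h3 (hint 3 (by omega) (by omega))
  rcases hk3.eq_or_lt with rfl | hk4
  · right; right
    ext x
    rw [mem_457]
    constructor
    · intro hx
      have := hmin x hx
      have : x ≠ 2 * 3 := fun e => hF (e ▸ hx)
      omega
    · rintro (rfl | rfl | rfl | hx)
      exacts [zero_mem _, hint _ (by omega) (by omega), hint _ (by omega) (by omega),
        hb _ (by omega)]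
  · exact (no_interval s1 hk4 (fun x hx => (hmin x (hST hx)).imp_right (by omega))
      fun x hx hx' => s2 x (hint x hx hx') hx').elim

end Irr

end Pool.Agent.Lib.MP_71c87b_al
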