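import Pool.Agent.Lib.MP_71c87b_al.Variety

/-!
# Counting the members of the variety by genus
-/

namespace Pool.Agent.Lib.MP_71c87b_al.Sparse

open Finset Pool.Agent.Lib.MP_71c87b_al
open scoped goldenRatio

open Classical in
/-- Weighted count of the subsets of `X` that are closed under the steps `s ↦ s + m`, `s ∈ P`. -/
theorem weight (x : ℝ) (hx : 0 ≤ x) (m : ℕ) (P : Finset ℕ) : ∀ X : Finset ℕ, P ⊆ X →
    (∀ s ∈ P, s + m ∈ X) → (∀ s ∈ P, s + m ∉ P) →
    (1 + x) ^ (2 * P.card) *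
        ∑ U ∈ X.powerset, (if ∀ s ∈ P, s ∈ U → s + m ∈ U then x ^ U.card else 0) ≤
      (1 + x) ^ X.card * (1 + x + x ^ 2) ^ P.card := by
  induction P using Finset.induction_on with
  | empty =>
    intro X _ _ _
    have := Finset.sum_pow_mul_eq_add_pow x 1 X
    simp only [one_pow, mul_one] at this
    simp [this, add_comm]
  | insert s P hs ih =>
    intro X h1 h2 h3
    have hsX : s ∈ X := h1 (mem_insert_self _ _)
    have hmX : s + m ∈ X := h2 s (mem_insert_self _ _)
    have hmP : s + m ∉ insert s P := h3 s (mem_insert_self _ _)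
    have hne : s + m ≠ s := fun e => hmP (e.symm ▸ mem_insert_self _ _)
    have hP' : ∀ t ∈ P, t + m ≠ s ∧ t + m ≠ s + m := fun t ht =>
      ⟨fun e => h3 t (mem_insert_of_mem ht) (e.symm ▸ mem_insert_self _ _),
        fun e => hs ((Nat.add_right_cancel e) ▸ ht)⟩
    set Y := (X.erase s).erase (s + m) with hY
    have hY1 : s + m ∉ Y := notMem_erase _ _
    have hY0 : s ∉ Y := fun e => notMem_erase s X (mem_of_mem_erase e)
    have hY2 : s ∉ insert (s + m) Y := by
      rw [mem_insert]; rintro (e | e)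
      · exact hne e.symm
      · exact hY0 e
    have hX : X = insert s (insert (s + m) Y) := by
      rw [hY, insert_erase (mem_erase.2 ⟨hne, hmX⟩), insert_erase hsX]
    have hc : X.card = Y.card + 2 := by
      rw [hX, card_insert_of_notMem hY2, card_insert_of_notMem hY1]
    have key := ih Y
      (fun t ht => mem_erase.2 ⟨fun e => hmP (e ▸ mem_insert_of_mem ht),
        mem_erase.2 ⟨fun e => hs (e ▸ ht), h1 (mem_insert_of_mem ht)⟩⟩)
      (fun t ht => mem_erase.2 ⟨(hP' t ht).2,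
        mem_erase.2 ⟨(hP' t ht).1, h2 t (mem_insert_of_mem ht)⟩⟩)
      (fun t ht e => h3 t (mem_insert_of_mem ht) (mem_insert_of_mem e))
    set g : Finset ℕ → ℝ := fun U => if ∀ s ∈ P, s ∈ U → s + m ∈ U then x ^ U.card else 0 with hg
    have g0 : ∀ U, 0 ≤ g U := fun U => by
      simp only [hg]; split_ifs <;> positivity
    have hsum : ∑ U ∈ X.powerset,
        (if ∀ t ∈ insert s P, t ∈ U → t + m ∈ U then x ^ U.card else 0) ≤
        (1 + x + x ^ 2) * ∑ U ∈ Y.powerset, g U := by
      rw [hX, sum_powerset_insert hY2, sum_powerset_insert hY1, sum_powerset_insert hY1,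
        ← sum_add_distrib, ← sum_add_distrib, ← sum_add_distrib, mul_sum]
      refine sum_le_sum fun U hU => ?_
      have hU' := mem_powerset.1 hU
      have u1 : s + m ∉ U := fun e => hY1 (hU' e)
      have u0 : s ∉ U := fun e => hY0 (hU' e)
      have u2 : s ∉ insert (s + m) U := by
        rw [mem_insert]; rintro (e | e)
        · exact hne e.symm
        · exact u0 e
      have a1 : (if ∀ t ∈ insert s P, t ∈ U → t + m ∈ U then x ^ U.card else 0) ≤ g U := by
        split_ifs with h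
        · simp only [hg]; rw [if_pos fun t ht => h t (mem_insert_of_mem ht)]
        · exact g0 U
      have a2 : (if ∀ t ∈ insert s P, t ∈ insert (s + m) U → t + m ∈ insert (s + m) U
          then x ^ (insert (s + m) U).card else 0) ≤ x * g U := by
        split_ifs with h
        · simp only [hg]
          rw [if_pos, card_insert_of_notMem u1, pow_succ, mul_comm]
          intro t ht htU
          exact (mem_insert.1 (h t (mem_insert_of_mem ht) (mem_insert_of_mem htU))).resolve_left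
            (hP' t ht).2
        · exact mul_nonneg hx (g0 U)
      have a3 : (if ∀ t ∈ insert s P, t ∈ insert s U → t + m ∈ insert s U
          then x ^ (insert s U).card else 0) ≤ 0 := by
        rw [if_neg]
        intro h
        rcases mem_insert.1 (h s (mem_insert_self _ _) (mem_insert_self _ _)) with e | e
        · exact hne e
        · exact u1 e
      have a4 : (if ∀ t ∈ insert s P, t ∈ insert s (insert (s + m) U) →
          t + m ∈ insert s (insert (s + m) U)
          then x ^ (insert s (insert (s + m) U)).card else 0) ≤ x ^ 2 * g U := by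
        split_ifs with h
        · simp only [hg]
          rw [if_pos, card_insert_of_notMem u2, card_insert_of_notMem u1]
          · exact le_of_eq (by ring)
          intro t ht htU
          exact (mem_insert.1 ((mem_insert.1 (h t (mem_insert_of_mem ht)
            (mem_insert_of_mem (mem_insert_of_mem htU)))).resolve_left (hP' t ht).1)).resolve_left
            (hP' t ht).2
        · exact mul_nonneg (by positivity) (g0 U)
      linarith
    rw [card_insert_of_notMem hs, hc]
    calc _ ≤ (1 + x) ^ (2 * (P.card + 1)) * ((1 + x + x ^ 2) * ∑ U ∈ Y.powerset, g U) :=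
          mul_le_mul_of_nonneg_left hsum (by positivity)
      _ = ((1 + x) ^ 2 * (1 + x + x ^ 2)) *
          ((1 + x) ^ (2 * P.card) * ∑ U ∈ Y.powerset, g U) := by ring
      _ ≤ ((1 + x) ^ 2 * (1 + x + x ^ 2)) *
          ((1 + x) ^ Y.card * (1 + x + x ^ 2) ^ P.card) :=
          mul_le_mul_of_nonneg_left key (by positivity)
      _ = _ := by ring

theorem phi_ge : (3 / 2 : ℝ) ≤ φ := by
  have : (2 : ℝ) ≤ √5 := Real.le_sqrt_of_sq_le (by norm_num)
  unfold Real.goldenRatio; linarith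

/-- The count with the golden ratio as weight. -/
theorem count_le {m n N r K : ℕ} {P X : Finset ℕ} {W : Finset (Finset ℕ)} (h1 : P ⊆ X)
    (h2 : ∀ s ∈ P, s + m ∈ X) (h3 : ∀ s ∈ P, s + m ∉ P)
    (hW : ∀ U ∈ W, U ⊆ X ∧ U.card = n ∧ ∀ s ∈ P, s ∈ U → s + m ∈ U)
    (hN : X.card + r ≤ N) (hK : K ≤ r + P.card) :
    (W.card : ℝ) * φ ^ n ≤ φ ^ (2 * N) * (4 / 5) ^ K := by
  classical
  have hp := phi_ge
  have hsq : φ ^ 2 = φ + 1 := Real.goldenRatio_sq
  have key := weight φ (by linarith) m P X h1 h2 h3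
  have hs : (W.card : ℝ) * φ ^ n ≤
      ∑ U ∈ X.powerset, (if ∀ s ∈ P, s ∈ U → s + m ∈ U then φ ^ U.card else 0) := by
    calc (W.card : ℝ) * φ ^ n
        = ∑ U ∈ W, (if ∀ s ∈ P, s ∈ U → s + m ∈ U then φ ^ U.card else 0) := by
          rw [← nsmul_eq_mul, ← sum_const]
          exact sum_congr rfl fun U hU => by rw [if_pos (hW U hU).2.2, (hW U hU).2.1]
      _ ≤ _ := sum_le_sum_of_subset_of_nonneg (fun U hU => mem_powerset.2 (hW U hU).1)
          fun U _ _ => by split_ifs <;> positivity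
  have e1 : (1 + φ) = φ ^ 2 := by linarith
  have hb : (1 + φ + φ ^ 2) ≤ (1 + φ) ^ 2 * (4 / 5) := by nlinarith
  have h4 : (W.card : ℝ) * φ ^ n ≤ (1 + φ) ^ X.card * (4 / 5) ^ P.card := by
    have hpos : (0 : ℝ) < (1 + φ) ^ (2 * P.card) := by positivity
    refine le_of_mul_le_mul_left ?_ hpos
    calc _ ≤ _ := mul_le_mul_of_nonneg_left hs hpos.le
      _ ≤ _ := key
      _ ≤ (1 + φ) ^ X.card * ((1 + φ) ^ 2 * (4 / 5)) ^ P.card :=
          mul_le_mul_of_nonneg_left (pow_le_pow_left₀ (by positivity) hb _) (by positivity)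
      _ = _ := by rw [mul_pow, ← pow_mul]; ring
  have h5 : (1 : ℝ) ≤ ((1 + φ) * (4 / 5)) ^ r := one_le_pow₀ (by linarith)
  calc _ ≤ _ := h4
    _ ≤ ((1 + φ) * (4 / 5)) ^ r * ((1 + φ) ^ X.card * (4 / 5) ^ P.card) :=
        le_mul_of_one_le_left (by positivity) h5
    _ = (1 + φ) ^ (X.card + r) * (4 / 5) ^ (r + P.card) := by rw [mul_pow]; ring
    _ ≤ (1 + φ) ^ N * (4 / 5) ^ K :=
        mul_le_mul (pow_le_pow_right₀ (by linarith) hN)
          (pow_le_pow_of_le_one (by norm_num) (by norm_num) hK) (by positivity) (by positivity)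
    _ = _ := by rw [e1, ← pow_mul]

/-- An element of a monoid with few generators has a large multiple of one generator. -/
theorem big_part {A : Finset ℕ} {w s : ℕ} (hw : 0 < w) (hs : s ∈ AddSubmonoid.closure (A : Set ℕ))
    (h0 : 0 < s) (h : A.card * w ≤ s) :
    ∃ a ∈ A, ∃ u ∈ AddSubmonoid.closure (A : Set ℕ), u + w ≤ s ∧ u + (w + a - 1) / a * a = s := by
  classical
  obtain ⟨f, -, hf⟩ := AddSubmonoid.mem_closure_finset.1 hs
  simp only [smul_eq_mul] at hf
  have hne : A.Nonempty := by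
    rcases A.eq_empty_or_nonempty with e | e
    · subst e; simp at hf; omega
    · exact e
  obtain ⟨a, ha, hw'⟩ : ∃ a ∈ A, w ≤ f a * a := by
    by_contra hc
    push Not at hc
    have := Finset.sum_lt_sum_of_nonempty hne hc
    rw [sum_const, smul_eq_mul] at this
    omega
  have ha0 : 0 < a := by
    rcases Nat.eq_zero_or_pos a with e | e
    · subst e; simp at hw'; omega
    · exact e
  have t1 : w ≤ (w + a - 1) / a * a := by
    have := Nat.div_add_mod (w + a - 1) a
    have := Nat.mod_lt (w + a - 1) ha0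
    rw [mul_comm]; omega
  have t2 : (w + a - 1) / a ≤ f a := by
    refine Nat.le_of_lt_succ ((Nat.div_lt_iff_lt_mul ha0).2 ?_)
    rw [Nat.succ_mul]; omega
  obtain ⟨c, hc⟩ := Nat.exists_eq_add_of_le t2
  have hsum := Finset.add_sum_erase A (fun b => f b * b) ha
  have e : c * a + ∑ b ∈ A.erase a, f b * b + (w + a - 1) / a * a = s := by
    rw [← hf, ← hsum, hc]; ring
  refine ⟨a, ha, c * a + ∑ b ∈ A.erase a, f b * b, ?_, by omega, e⟩
  refine AddSubmonoid.add_mem _ ?_ (AddSubmonoid.sum_mem _ fun b hb => ?_)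
  · exact AddSubmonoid.nsmul_mem _ (AddSubmonoid.subset_closure (mem_coe.2 ha)) c
  · exact AddSubmonoid.nsmul_mem _
      (AddSubmonoid.subset_closure (mem_coe.2 (mem_of_mem_erase hb))) (f b)

open Classical in
/-- The elements of `S` below `F / 2`. -/
noncomputable def lo (S : AddSubmonoid ℕ) (F : ℕ) : Finset ℕ :=
  (range F).filter fun s => s ∈ S ∧ 2 * s < F

open Classical in
/-- The elements of `S` between `F / 2` and `F`. -/
noncomputable def hi (S : AddSubmonoid ℕ) (F : ℕ) : Finset ℕ :=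
  (range F).filter fun s => s ∈ S ∧ F ≤ 2 * s

theorem mem_lo {S : AddSubmonoid ℕ} {F s : ℕ} : s ∈ lo S F ↔ s ∈ S ∧ 2 * s < F := by
  classical
  unfold lo; rw [mem_filter, mem_range]
  exact ⟨fun h => h.2, fun h => ⟨by omega, h⟩⟩

theorem mem_hi {S : AddSubmonoid ℕ} {F s : ℕ} : s ∈ hi S F ↔ s < F ∧ s ∈ S ∧ F ≤ 2 * s := by
  classical
  unfold hi; rw [mem_filter, mem_range]

theorem lo_add_hi {S : AddSubmonoid ℕ} {F : ℕ} (hF : F ∉ S) :
    (lo S F).card + (hi S F).card ≤ F / 2 + 1 := by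
  have h1 : ((lo S F).image (F - ·)).card = (lo S F).card :=
    card_image_of_injOn fun a ha b hb e => by
      have := (mem_lo.1 (mem_coe.1 ha)).2
      have := (mem_lo.1 (mem_coe.1 hb)).2
      omega
  have h2 : Disjoint ((lo S F).image (F - ·)) (hi S F) := by
    rw [disjoint_left]
    intro x hx hx'
    obtain ⟨a, ha, rfl⟩ := mem_image.1 hx
    have ha' := mem_lo.1 ha
    have := S.add_mem ha'.1 (mem_hi.1 hx').2.1
    rw [show a + (F - a) = F by omega] at this
    exact hF this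
  rw [← h1, ← card_union_of_disjoint h2]
  refine (card_le_card (t := Icc ((F + 1) / 2) F) fun x hx => ?_).trans (by simp; omega)
  rw [mem_Icc]
  rcases mem_union.1 hx with h | h
  · obtain ⟨a, ha, rfl⟩ := mem_image.1 h
    have := (mem_lo.1 ha).2
    omega
  · have := mem_hi.1 h
    omega

theorem dichotomy {A : Finset ℕ} {F e K : ℕ} (he : A.card ≤ e) (he1 : 1 ≤ e)
    (hF : 2 * (e * ((2 * e + 3) * K + 1)) ≤ F) :
    (lo (AddSubmonoid.closure (A : Set ℕ)) F).card +
        (hi (AddSubmonoid.closure (A : Set ℕ)) F).card + K ≤ F / 2 + 1 ∨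
      2 * K + 1 ≤ (lo (AddSubmonoid.closure (A : Set ℕ)) F).card := by
  classical
  set S := AddSubmonoid.closure (A : Set ℕ)
  set w := (2 * e + 3) * K + 1 with hw
  by_contra hc
  push Not at hc
  have hw0 : 0 < w := by omega
  have hw1 : w ≤ e * w := Nat.le_mul_of_pos_left _ he1
  have hAw : A.card * w ≤ e * w := Nat.mul_le_mul_right _ he
  have h1 : hi S F ⊆ (A.biUnion fun a => (lo S F).image (· + (w + a - 1) / a * a)) ∪
      Ico ((F + 1) / 2 + w) F := by
    intro s hs
    have hs' := mem_hi.1 hs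
    by_cases h : (F + 1) / 2 + w ≤ s
    · exact mem_union_right _ (mem_Ico.2 ⟨h, hs'.1⟩)
    · obtain ⟨a, ha, u, hu, u1, u2⟩ := big_part hw0 hs'.2.1 (by omega) (by omega)
      exact mem_union_left _ (mem_biUnion.2 ⟨a, ha,
        mem_image.2 ⟨u, mem_lo.2 ⟨hu, by omega⟩, u2⟩⟩)
  have h2 : (A.biUnion fun a => (lo S F).image (· + (w + a - 1) / a * a)).card ≤
      A.card * (lo S F).card := card_biUnion_le_card_mul _ _ _ fun a _ => card_image_le
  have h3 := (card_le_card h1).trans (card_union_le _ _)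
  rw [Nat.card_Ico] at h3
  have h4 : A.card * (lo S F).card ≤ e * (2 * K) := Nat.mul_le_mul he (by omega)
  have h5 : w = e * (2 * K) + 3 * K + 1 := by rw [hw]; ring
  omega

open Classical in
/-- The possible sets of small elements, given the Frobenius number `F`, the generators `A` of a
separating monoid and a small element `m` (or `m = 0` when there is none). -/
noncomputable def cell (γ F m : ℕ) (A : Finset ℕ) : Finset (Finset ℕ) :=
  (range F).powerset.filter fun U => γ ≤ F ∧ F ∉ AddSubmonoid.closure (A : Set ℕ) ∧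
    (∀ u ∈ U, u ∈ AddSubmonoid.closure (A : Set ℕ)) ∧ U.card + γ = F + 1 ∧
    ((0 < m ∧ 2 * m < F ∧ m ∈ U ∧ ∀ u ∈ U, u + m < F → u + m ∈ U) ∨
      (m = 0 ∧ ∀ u ∈ U, u = 0 ∨ F ≤ 2 * u))

theorem cell_card {γ F m e K : ℕ} {A : Finset ℕ} (he : A.card ≤ e) (he1 : 1 ≤ e)
    (hγ : 2 * (e * ((2 * e + 3) * K + 1)) ≤ γ) :
    ((cell γ F m A).card : ℝ) ≤ φ ^ (γ + 1) * (4 / 5) ^ K := by
  classical
  have hp := phi_ge
  rcases (cell γ F m A).eq_empty_or_nonempty with h0 | ⟨U₀, hU₀⟩
  · rw [h0]; simp only [card_empty, Nat.cast_zero]; positivity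
  set S := AddSubmonoid.closure (A : Set ℕ) with hS
  have hmem : ∀ U ∈ cell γ F m A, (∀ u ∈ U, u < F) ∧ γ ≤ F ∧ F ∉ S ∧ (∀ u ∈ U, u ∈ S) ∧
      U.card + γ = F + 1 ∧ ((0 < m ∧ 2 * m < F ∧ m ∈ U ∧ ∀ u ∈ U, u + m < F → u + m ∈ U) ∨
      (m = 0 ∧ ∀ u ∈ U, u = 0 ∨ F ≤ 2 * u)) := fun U hU => by
    unfold cell at hU
    rw [mem_filter, mem_powerset] at hU
    exact ⟨fun u hu => mem_range.1 (hU.1 hu), hU.2⟩
  obtain ⟨b1, b2, b3, b4, b5, b6⟩ := hmem U₀ hU₀
  have hsum := lo_add_hi b3
  have hX : ∀ U ∈ cell γ F m A, U ⊆ lo S F ∪ hi S F := fun U hU u hu => by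
    have h := hmem U hU
    by_cases h' : 2 * u < F
    · exact mem_union_left _ (mem_lo.2 ⟨h.2.2.2.1 u hu, h'⟩)
    · exact mem_union_right _ (mem_hi.2 ⟨h.1 u hu, h.2.2.2.1 u hu, by omega⟩)
  have hXc := card_union_le (lo S F) (hi S F)
  have hn : ∀ U ∈ cell γ F m A, U.card = F + 1 - γ := fun U hU => by
    have := (hmem U hU).2.2.2.2.1; omega
  have main : ((cell γ F m A).card : ℝ) * φ ^ (F + 1 - γ) ≤
      φ ^ (2 * (F / 2 + 1)) * (4 / 5) ^ K := by
    rcases dichotomy he he1 (hγ.trans b2) with hd | hd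
    · exact count_le (m := m) (r := K) (P := ∅) (X := lo S F ∪ hi S F) (empty_subset _)
        (by simp) (by simp) (fun U hU => ⟨hX U hU, hn U hU, by simp⟩)
        (by rw [← hS] at hd; omega) (by simp)
    rw [← hS] at hd
    rcases b6 with ⟨m0, m1, m2, -⟩ | ⟨m0, -⟩
    · obtain ⟨i, hi2, hP⟩ : ∃ i, i < 2 ∧ K ≤ ((lo S F).filter fun s => s / m % 2 = i).card := by
        by_contra hc
        push Not at hc
        have c0 := hc 0 (by omega)
        have c1 := hc 1 (by omega)
        have : lo S F ⊆ ((lo S F).filter fun s => s / m % 2 = 0) ∪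
            ((lo S F).filter fun s => s / m % 2 = 1) := fun s hs => by
          rw [mem_union, mem_filter, mem_filter]
          have := Nat.mod_two_eq_zero_or_one (s / m)
          tauto
        have := (card_le_card this).trans (card_union_le _ _)
        omega
      refine count_le (m := m) (r := 0) (P := (lo S F).filter fun s => s / m % 2 = i)
        (X := lo S F ∪ hi S F) ((filter_subset _ _).trans subset_union_left) (fun s hs => ?_)
        (fun s hs hs' => ?_) (fun U hU => ⟨hX U hU, hn U hU, fun s hs hsU => ?_⟩) (by omega)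
        (by omega)
      · have h := mem_lo.1 (mem_filter.1 hs).1
        have h' := S.add_mem h.1 (b4 m m2)
        by_cases h'' : 2 * (s + m) < F
        · exact mem_union_left _ (mem_lo.2 ⟨h', h''⟩)
        · exact mem_union_right _ (mem_hi.2 ⟨by omega, h', by omega⟩)
      · have e1 := (mem_filter.1 hs).2
        have e2 := (mem_filter.1 hs').2
        rw [Nat.add_div_right _ m0] at e2
        omega
      · have h := mem_lo.1 (mem_filter.1 hs).1
        rcases (hmem U hU).2.2.2.2.2 with h' | h'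
        · exact h'.2.2.2 s hsU (by omega)
        · omega
    · have := card_insert_le 0 (hi S F)
      refine count_le (m := m) (r := K) (P := ∅) (X := insert 0 (hi S F)) (empty_subset _)
        (by simp) (by simp) (fun U hU => ⟨fun u hu => ?_, hn U hU, by simp⟩) (by omega) (by simp)
      have h := hmem U hU
      rcases h.2.2.2.2.2 with h' | h'
      · omega
      · rcases h'.2 u hu with e | e
        · exact e ▸ mem_insert_self _ _
        · exact mem_insert_of_mem (mem_hi.2 ⟨h.1 u hu, h.2.2.2.1 u hu, e⟩)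
  have hpos : (0 : ℝ) < φ ^ (F + 1 - γ) := by positivity
  refine le_of_mul_le_mul_right (main.trans ?_) hpos
  rw [mul_right_comm, ← pow_add]
  exact mul_le_mul_of_nonneg_right (pow_le_pow_right₀ (by linarith) (by omega)) (by positivity)

/-- A gap of a member of the variety is separated by a monoid with few generators. -/
theorem few_gens {T : AddSubmonoid ℕ} (hT : T ∈ VCI) {F : ℕ} (hF : F ∉ T) :
    ∃ A : Finset ℕ, A ⊆ range F ∧ 2 ^ A.card ≤ 2 * F ∧ F ∉ AddSubmonoid.closure (A : Set ℕ) ∧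
      ∀ t ∈ T, t < F → t ∈ AddSubmonoid.closure (A : Set ℕ) := by
  obtain ⟨S, s1, s2, s3⟩ := (mem_VCI.1 hT).2 F hF
  have h0 : F ≠ 0 := fun e => hF (e ▸ T.zero_mem)
  set G := (gens_finite S).toFinset with hG
  have hcl : AddSubmonoid.closure (G : Set ℕ) = S := by
    rw [hG, Set.Finite.coe_toFinset, closure_gens]
  refine ⟨G.filter (· < F), fun a ha => mem_range.2 (mem_filter.1 ha).2, ?_, fun e => s3 ?_,
    fun t ht htF => ?_⟩
  · rcases (G.filter (· < F)).eq_empty_or_nonempty with e | ⟨a, ha⟩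
    · rw [e]; simp; omega
    · have h1 := s1.glued.two_pow (S := S) (fun x hx => (Set.Finite.mem_toFinset _).1 hx) a
        (mem_filter.1 ha).1
      have h2 := (mem_filter.1 ha).2
      have h3 : 2 ^ (G.filter (· < F)).card ≤ 2 ^ G.card :=
        Nat.pow_le_pow_right (by norm_num) (card_filter_le _ _)
      have h4 : 2 ^ G.card ≤ 2 * a := (Nat.le_mul_of_pos_right _ s1.glued.gcd_pos).trans h1
      omega
  · exact hcl ▸ AddSubmonoid.closure_mono (coe_subset.2 (filter_subset _ _)) e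
  · refine mem_closure_of_lt (C := G.filter (¬ · < F)) (L := t) (fun c hc => ?_) ?_ le_rfl
    · have := (mem_filter.1 hc).2
      omega
    · rw [filter_union_filter_not_eq, hcl]
      exact s2 t ht htF

theorem gap_lt {T : AddSubmonoid ℕ} (hT : IsNumerical T) {F : ℕ} (hF : F ∉ T) :
    F < 2 * ((T : Set ℕ)ᶜ).ncard := by
  have h : range (F + 1) ⊆ hT.toFinset ∪ hT.toFinset.image (F - ·) := fun x hx => by
    have hx' := mem_range.1 hx
    by_cases h1 : x ∈ T
    · refine mem_union_right _ (mem_image.2 ⟨F - x, (Set.Finite.mem_toFinset _).2 fun h2 => hF ?_,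
        by omega⟩)
      have := T.add_mem h1 h2
      rwa [show x + (F - x) = F by omega] at this
    · exact mem_union_left _ ((Set.Finite.mem_toFinset _).2 h1)
  have h1 := (card_le_card h).trans (card_union_le _ _)
  have h2 : (hT.toFinset.image (F - ·)).card ≤ hT.toFinset.card := card_image_le
  rw [card_range] at h1
  rw [Set.ncard_eq_toFinset_card _ hT]
  omega

/-- The semigroup with given small elements. -/
def fill (p : ℕ × Finset ℕ) : AddSubmonoid ℕ :=
  AddSubmonoid.closure ((p.2 : Set ℕ) ∪ Set.Ioi p.1)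

/-- The index set of the cells. -/
def idx (γ e : ℕ) : Finset (ℕ × ℕ × Finset ℕ) :=
  range (2 * γ) ×ˢ range (2 * γ) ×ˢ (range (e + 1)).biUnion fun j => powersetCard j (range (2 * γ))

theorem idx_card {γ e : ℕ} (h : 1 ≤ γ) : (idx γ e).card ≤ (e + 1) * (2 * γ) ^ (e + 2) := by
  have : ((range (e + 1)).biUnion fun j => powersetCard j (range (2 * γ))).card ≤
      (range (e + 1)).card * (2 * γ) ^ e :=
    card_biUnion_le_card_mul _ _ _ fun j hj => by
      rw [card_powersetCard, card_range]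
      exact (Nat.choose_le_pow _ _).trans
        (Nat.pow_le_pow_right (by omega) (Nat.lt_succ_iff.1 (mem_range.1 hj)))
  rw [idx, card_product, card_product]
  rw [card_range] at this ⊢
  calc _ ≤ 2 * γ * (2 * γ * ((e + 1) * (2 * γ) ^ e)) :=
        Nat.mul_le_mul_left _ (Nat.mul_le_mul_left _ this)
    _ = _ := by ring

theorem cover {γ e : ℕ} (h1 : 1 ≤ γ) (he : 4 * γ ≤ 2 ^ e) :
    {T : AddSubmonoid ℕ | T ∈ VCI ∧ ((T : Set ℕ)ᶜ).ncard = γ} ⊆
      fill '' ((idx γ e).biUnion fun i =>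
        (cell γ i.1 i.2.1 i.2.2).image fun U => (i.1, U) : Finset (ℕ × Finset ℕ)) := by
  classical
  rintro T ⟨hT, hγ⟩
  have hN : ((T : Set ℕ)ᶜ).Finite := (mem_VCI.1 hT).1
  have hne : hN.toFinset.Nonempty := by
    rw [← card_pos, ← Set.ncard_eq_toFinset_card _ hN]; omega
  set F := hN.toFinset.max' hne
  have hF : F ∉ T := (Set.Finite.mem_toFinset _).1 (max'_mem _ hne)
  have hb : ∀ x, F < x → x ∈ T := fun x hx => by
    by_contra h
    exact absurd (le_max' _ x ((Set.Finite.mem_toFinset hN).2 h)) (not_le.2 hx)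
  have hlt := gap_lt hN hF
  rw [hγ] at hlt
  obtain ⟨A, a1, a2, a3, a4⟩ := few_gens hT hF
  have hA : A.card ≤ e := (Nat.pow_le_pow_iff_right (by norm_num : 1 < 2)).1 (by omega)
  set U := (range F).filter (· ∈ T) with hU
  have mU : ∀ {u}, u ∈ U ↔ u < F ∧ u ∈ T := fun {u} => by rw [hU, mem_filter, mem_range]
  have h0 : F ≠ 0 := fun e => hF (e ▸ T.zero_mem)
  have hcard : U.card + γ = F + 1 := by
    have e1 : (range (F + 1)).filter (· ∈ T) = U := by
      ext x
      rw [mU, mem_filter, mem_range]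
      refine ⟨fun h => ⟨?_, h.2⟩, fun h => ⟨by omega, h.2⟩⟩
      have : x ≠ F := fun e => hF (e ▸ h.2)
      omega
    have e2 : (range (F + 1)).filter (¬ · ∈ T) = hN.toFinset := by
      ext x
      rw [mem_filter, mem_range, Set.Finite.mem_toFinset]
      exact ⟨fun h => h.2, fun h => ⟨by by_contra e; exact h (hb x (by omega)), h⟩⟩
    have := card_filter_add_card_filter_not (s := range (F + 1)) (· ∈ T)
    rw [e1, e2, card_range, ← Set.ncard_eq_toFinset_card _ hN, hγ] at this
    exact this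
  have hpos : 0 < U.card := card_pos.2 ⟨0, mU.2 ⟨by omega, T.zero_mem⟩⟩
  obtain ⟨m, hm, hm'⟩ : ∃ m, m < 2 * γ ∧
      ((0 < m ∧ 2 * m < F ∧ m ∈ U ∧ ∀ u ∈ U, u + m < F → u + m ∈ U) ∨
      (m = 0 ∧ ∀ u ∈ U, u = 0 ∨ F ≤ 2 * u)) := by
    by_cases h : ∀ u ∈ U, u = 0 ∨ F ≤ 2 * u
    · exact ⟨0, by omega, Or.inr ⟨rfl, h⟩⟩
    · push Not at h
      obtain ⟨m, m1, m2, m3⟩ := h
      exact ⟨m, by omega, Or.inl ⟨by omega, m3, m1, fun u hu h =>
        mU.2 ⟨h, T.add_mem (mU.1 hu).2 (mU.1 m1).2⟩⟩⟩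
  refine ⟨(F, U), mem_coe.2 (mem_biUnion.2 ⟨(F, m, A), ?_, mem_image.2 ⟨U, ?_, rfl⟩⟩), ?_⟩
  · refine mem_product.2 ⟨mem_range.2 hlt, mem_product.2 ⟨mem_range.2 hm, mem_biUnion.2
      ⟨A.card, mem_range.2 (by omega), mem_powersetCard.2 ⟨fun a ha => ?_, rfl⟩⟩⟩⟩
    have := mem_range.1 (a1 ha)
    exact mem_range.2 (by omega)
  · unfold cell
    rw [mem_filter, mem_powerset]
    exact ⟨filter_subset _ _, by dsimp only; omega, a3,
      fun u hu => a4 u (mU.1 hu).2 (mU.1 hu).1, hcard, hm'⟩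
  · have : ((U : Set ℕ) ∪ Set.Ioi F) = T := by
      ext x
      rw [Set.mem_union, mem_coe, mU, Set.mem_Ioi, SetLike.mem_coe]
      refine ⟨fun h => h.elim (·.2) (hb x), fun h => ?_⟩
      have : x ≠ F := fun e => hF (e ▸ h)
      by_cases h' : x < F
      · exact Or.inl ⟨h', h⟩
      · exact Or.inr (by omega)
    unfold fill
    rw [this, AddSubmonoid.closure_eq]

theorem upper {γ e K : ℕ} (he : 4 * γ ≤ 2 ^ e) (he1 : 1 ≤ e)
    (hγ : 2 * (e * ((2 * e + 3) * K + 1)) ≤ γ) :
    (({T : AddSubmonoid ℕ | T ∈ VCI ∧ ((T : Set ℕ)ᶜ).ncard = γ}).ncard : ℝ) ≤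
      ((e + 1) * (2 * γ) ^ (e + 2) : ℕ) * (φ ^ (γ + 1) * (4 / 5) ^ K) := by
  have hp := phi_ge
  have h1 : 1 ≤ γ := by
    have : 1 ≤ e * ((2 * e + 3) * K + 1) := Nat.mul_pos he1 (by omega)
    omega
  have h2 := (Set.ncard_le_ncard (cover h1 he) ((finite_toSet _).image _)).trans
    (Set.ncard_image_le (finite_toSet _))
  rw [Set.ncard_coe_finset] at h2
  have h3 := h2.trans card_biUnion_le
  calc _ ≤ ((∑ i ∈ idx γ e, ((cell γ i.1 i.2.1 i.2.2).image fun U => (i.1, U)).card : ℕ) : ℝ) :=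
        Nat.cast_le.2 h3
    _ ≤ ∑ i ∈ idx γ e, φ ^ (γ + 1) * (4 / 5) ^ K := by
        rw [Nat.cast_sum]
        refine sum_le_sum fun i hi => (Nat.cast_le.2 card_image_le).trans (cell_card ?_ he1 hγ)
        obtain ⟨j, hj, h⟩ := mem_biUnion.1 (mem_product.1 (mem_product.1 hi).2).2
        have := (mem_powersetCard.1 h).2
        have := mem_range.1 hj
        omega
    _ ≤ _ := by
        rw [sum_const, nsmul_eq_mul]
        exact mul_le_mul_of_nonneg_right (Nat.cast_le.2 (idx_card h1)) (by positivity)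

theorem all_finite (γ : ℕ) :
    {T : AddSubmonoid ℕ | IsNumerical T ∧ ((T : Set ℕ)ᶜ).ncard = γ}.Finite := by
  classical
  refine ((finite_toSet (range (2 * γ + 1)).powerset).image fun U => fill (2 * γ, U)).subset ?_
  rintro T ⟨hT, hγ⟩
  refine ⟨(range (2 * γ + 1)).filter (· ∈ T), mem_coe.2 (mem_powerset.2 (filter_subset _ _)), ?_⟩
  have : (((range (2 * γ + 1)).filter (· ∈ T) : Finset ℕ) : Set ℕ) ∪ Set.Ioi (2 * γ) = T := by
    ext x
    rw [Set.mem_union, mem_coe, mem_filter, mem_range, Set.mem_Ioi, SetLike.mem_coe]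
    refine ⟨fun h => h.elim (·.2) fun h => ?_, fun h => ?_⟩
    · by_contra e
      have := gap_lt hT e
      omega
    · by_cases h' : x < 2 * γ + 1
      · exact Or.inl ⟨h', h⟩
      · exact Or.inr (by omega)
  unfold fill
  dsimp only
  rw [this, AddSubmonoid.closure_eq]

/-- The semigroup whose gaps are `1, …, i` and the elements of `B` below `2 i + 2`. -/
def elem (i : ℕ) (B : Finset ℕ) : AddSubmonoid ℕ where
  carrier := {x | x = 0 ∨ (i < x ∧ (x ∈ B → 2 * i + 2 ≤ x))}
  zero_mem' := Or.inl rfl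
  add_mem' := by
    rintro a b (ha | ha) (hb | hb)
    · exact Or.inl (by omega)
    · subst ha; rw [zero_add]; exact Or.inr hb
    · subst hb; rw [add_zero]; exact Or.inr ha
    · exact Or.inr ⟨by omega, fun _ => by omega⟩

theorem elem_compl {i : ℕ} {B : Finset ℕ} (hB : B ⊆ Ioo (i + 1) (2 * i + 2)) :
    ((elem i B : Set ℕ)ᶜ) = ((Icc 1 i ∪ B : Finset ℕ) : Set ℕ) := by
  ext x
  have h1 : x ∈ (elem i B : Set ℕ) ↔ x = 0 ∨ (i < x ∧ (x ∈ B → 2 * i + 2 ≤ x)) := Iff.rfl
  rw [Set.mem_compl_iff, h1, mem_coe, mem_union, mem_Icc]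
  by_cases h : x ∈ B
  · have := mem_Ioo.1 (hB h)
    simp only [h, or_true, iff_true, forall_const]
    omega
  · simp only [h, or_false, false_imp_iff, and_true]
    omega

theorem choose_le (i j : ℕ) : i.choose j ≤
    {T : AddSubmonoid ℕ | IsNumerical T ∧ ((T : Set ℕ)ᶜ).ncard = i + j}.ncard := by
  have hc : (powersetCard j (Ioo (i + 1) (2 * i + 2))).card = i.choose j := by
    rw [card_powersetCard, Nat.card_Ioo]; congr 1; omega
  have hd : ∀ B : Finset ℕ, B ⊆ Ioo (i + 1) (2 * i + 2) → Disjoint (Icc 1 i) B := fun B hB => by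
    rw [disjoint_left]
    intro x hx hx'
    have := mem_Icc.1 hx
    have := mem_Ioo.1 (hB hx')
    omega
  rw [← hc, ← Set.ncard_coe_finset]
  refine Set.ncard_le_ncard_of_injOn (elem i) (fun B hB => ?_) (fun B hB C hC e => ?_)
    (all_finite _)
  · have h := mem_powersetCard.1 (mem_coe.1 hB)
    refine ⟨?_, ?_⟩
    · unfold IsNumerical
      rw [elem_compl h.1]; exact finite_toSet _
    · rw [elem_compl h.1, Set.ncard_coe_finset, card_union_of_disjoint (hd B h.1), h.2]
      simp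
  · have h := mem_powersetCard.1 (mem_coe.1 hB)
    have h' := mem_powersetCard.1 (mem_coe.1 hC)
    have := elem_compl h.1
    rw [e, elem_compl h'.1, coe_inj] at this
    rw [← union_sdiff_cancel_left (hd B h.1), ← this, union_sdiff_cancel_left (hd C h'.1)]

theorem lower (γ : ℕ) : φ ^ (γ + 1) ≤ 3 * (γ + 1) *
    ({T : AddSubmonoid ℕ | IsNumerical T ∧ ((T : Set ℕ)ᶜ).ncard = γ}.ncard : ℝ) := by
  set a := {T : AddSubmonoid ℕ | IsNumerical T ∧ ((T : Set ℕ)ᶜ).ncard = γ}.ncard with ha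
  have h1 : Nat.fib (γ + 1) ≤ (γ + 1) * a := by
    rw [Nat.fib_succ_eq_sum_choose]
    refine (sum_le_card_nsmul _ _ a fun p hp => ?_).trans (by simp)
    have := choose_le p.1 p.2
    rwa [mem_antidiagonal.1 hp] at this
  have h2 : (Nat.fib γ : ℝ) ≤ Nat.fib (γ + 1) := Nat.cast_le.2 Nat.fib_le_fib_succ
  have h3 : (Nat.fib (γ + 1) : ℝ) ≤ (γ + 1) * a := by exact_mod_cast h1
  have h4 := Real.goldenRatio_lt_two
  have h5 : (0 : ℝ) ≤ Nat.fib (γ + 1) := Nat.cast_nonneg _
  rw [← Real.goldenRatio_mul_fib_succ_add_fib]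
  nlinarith

end Pool.Agent.Lib.MP_71c87b_al.Sparse
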