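import Mathlib
import Pool.Agent.Lib.MP_71c87b_al.Defs

-- part Pool.Agent.Lib.MP_71c87b_al.Comb
section

/-!
# The combinatorial core of the gluing theorem

A system of two-sided relations in which every nonempty set `K` meets both sides of fewer than
`#K` relations, and which has `#A - 1` relations, has a root relation.
-/

namespace Pool.Agent.Lib.MP_71c87b_al

open Finset

variable {ρ : Type} [DecidableEq ρ]

open Classical in
/-- The relations both of whose sides meet `K`. -/
noncomputable def mixed (R : Finset ρ) (s : ρ → Bool → Finset ℕ) (K : Finset ℕ) : Finset ρ :=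
  R.filter fun r => ∀ β, ∃ i ∈ s r β, i ∈ K

omit [DecidableEq ρ] in
theorem mem_mixed {R : Finset ρ} {s : ρ → Bool → Finset ℕ} {K : Finset ℕ} {r : ρ} :
    r ∈ mixed R s K ↔ r ∈ R ∧ ∀ β, ∃ i ∈ s r β, i ∈ K := by
  simp [mixed]

theorem exists_single {A : Finset ℕ} {R : Finset ρ} {s : ρ → Bool → Finset ℕ}
    (hA : 2 ≤ A.card) (hs : ∀ r ∈ R, ∀ β, (s r β).Nonempty ∧ s r β ⊆ A)
    (hR : R.card + 1 = A.card)
    (hM : ∀ K ⊆ A, K.Nonempty → (mixed R s K).card < K.card) :
    ∃ r ∈ R, ∃ β x, s r β = {x} := by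
  classical
  have hex : ∃ K, K ⊆ A ∧ K ≠ A ∧ (mixed R s K).card + 1 = K.card := by
    obtain ⟨x, hx⟩ : A.Nonempty := card_pos.1 (by omega)
    refine ⟨{x}, by simpa, fun h => by rw [← h] at hA; simp at hA, ?_⟩
    have := hM {x} (by simpa) (by simp)
    simp only [card_singleton] at this ⊢
    omega
  obtain ⟨K, hK, hmax⟩ := exists_max_image
    (A.powerset.filter fun K => K ≠ A ∧ (mixed R s K).card + 1 = K.card) card
    (by obtain ⟨K, h1, h2, h3⟩ := hex; exact ⟨K, by simp [h1, h2, h3]⟩)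
  simp only [mem_filter, mem_powerset] at hK hmax
  obtain ⟨hKA, hKne, hKt⟩ := hK
  have hlt : K.card < A.card := card_lt_card (ssubset_of_subset_of_ne hKA hKne)
  by_cases h : ∃ r ∈ R, ∃ β, (∃ i ∈ s r (!β), i ∈ K) ∧ ∀ i ∈ s r β, i ∉ K
  · obtain ⟨r, hr, β, ⟨i, hi, hiK⟩, hβ⟩ := h
    obtain ⟨x, hx⟩ := (hs r hr β).1
    have hxK : x ∉ K := hβ x hx
    have hxA : x ∈ A := (hs r hr β).2 hx
    have hsub : insert r (mixed R s K) ⊆ mixed R s (insert x K) := by
      intro t ht
      rcases mem_insert.1 ht with rfl | ht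
      · refine mem_mixed.2 ⟨hr, fun γ => ?_⟩
        by_cases hγ : γ = β
        · exact ⟨x, hγ ▸ hx, mem_insert_self _ _⟩
        · exact ⟨i, by rwa [Bool.eq_not_of_ne hγ], mem_insert_of_mem hiK⟩
      · obtain ⟨h1, h2⟩ := mem_mixed.1 ht
        exact mem_mixed.2 ⟨h1, fun γ => by
          obtain ⟨j, hj, hjK⟩ := h2 γ
          exact ⟨j, hj, mem_insert_of_mem hjK⟩⟩
    have hrn : r ∉ mixed R s K := fun h => by
      obtain ⟨j, hj, hjK⟩ := (mem_mixed.1 h).2 β
      exact hβ j hj hjK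
    have h1 := card_le_card hsub
    rw [card_insert_of_notMem hrn] at h1
    have h2 := hM (insert x K) (insert_subset hxA hKA) (insert_nonempty _ _)
    rw [card_insert_of_notMem hxK] at h2
    have hall : insert x K = A := by
      by_contra hne
      have := hmax (insert x K) ⟨insert_subset hxA hKA, hne, by
        rw [card_insert_of_notMem hxK]; omega⟩
      rw [card_insert_of_notMem hxK] at this
      omega
    refine ⟨r, hr, β, x, eq_singleton_iff_unique_mem.2 ⟨hx, fun y hy => ?_⟩⟩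
    have := (hs r hr β).2 hy
    rw [← hall] at this
    exact (mem_insert.1 this).resolve_right (hβ y hy)
  · exfalso
    push Not at h
    have hsub : R ⊆ mixed R s K ∪ mixed R s (A \ K) := by
      intro r hr
      by_cases hr1 : r ∈ mixed R s K
      · exact mem_union_left _ hr1
      refine mem_union_right _ (mem_mixed.2 ⟨hr, fun β => ?_⟩)
      obtain ⟨i, hi⟩ := (hs r hr β).1
      refine ⟨i, hi, mem_sdiff.2 ⟨(hs r hr β).2 hi, fun hiK => hr1 ?_⟩⟩
      refine mem_mixed.2 ⟨hr, fun γ => ?_⟩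
      by_cases hγ : γ = β
      · exact ⟨i, hγ ▸ hi, hiK⟩
      · exact h r hr γ ⟨i, by rwa [← Bool.eq_not_of_ne (Ne.symm hγ)], hiK⟩
    have h1 := (card_le_card hsub).trans (card_union_le _ _)
    have h2 := hM (A \ K) sdiff_subset (card_pos.1 (by rw [card_sdiff_of_subset hKA]; omega))
    rw [card_sdiff_of_subset hKA] at h2
    omega

theorem exists_root (n : ℕ) : ∀ (A : Finset ℕ) (R : Finset ρ) (s : ρ → Bool → Finset ℕ),
    A.card = n + 2 → (∀ r ∈ R, ∀ β, (s r β).Nonempty ∧ s r β ⊆ A) → R.card + 1 = A.card →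
    (∀ K ⊆ A, K.Nonempty → (mixed R s K).card < K.card) →
    ∃ r0 ∈ R, ∃ c : ℕ → Bool, (∀ β, ∀ i ∈ s r0 β, c i = β) ∧
      ∀ r ∈ R, r ≠ r0 → ∃ γ, ∀ β, ∀ i ∈ s r β, c i = γ := by
  classical
  induction n using Nat.strong_induction_on with
  | _ n ih =>
  intro A R s hA hs hR hM
  obtain ⟨r, hr, β, x, hx⟩ := exists_single (by omega) hs hR hM
  have hxA : x ∈ A := (hs r hr β).2 (by simp [hx])
  have hxo : x ∉ s r (!β) := fun h => by
    have h1 := hM {x} (by simpa) (by simp)
    have h2 : r ∈ mixed R s {x} := mem_mixed.2 ⟨hr, fun γ => by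
      by_cases hγ : γ = β
      · exact ⟨x, by simp [hγ, hx], by simp⟩
      · exact ⟨x, by rwa [Bool.eq_not_of_ne hγ], by simp⟩⟩
    have := card_pos.2 ⟨r, h2⟩
    simp only [card_singleton] at h1
    omega
  by_cases hother : ∃ t ∈ R, t ≠ r ∧ ∃ δ, x ∈ s t δ
  swap
  · push Not at hother
    refine ⟨r, hr, fun i => if i = x then β else !β, fun γ i hi => ?_, fun t ht htr =>
      ⟨!β, fun γ i hi => if_neg fun h : i = x => hother t ht htr γ (h ▸ hi)⟩⟩
    by_cases hγ : γ = β
    · subst hγ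
      rw [hx, mem_singleton] at hi
      simp [hi]
    · rw [Bool.eq_not_of_ne hγ] at hi ⊢
      exact if_neg fun h : i = x => hxo (h ▸ hi)
  obtain ⟨t, ht, htr, δ, hxt⟩ := hother
  have hR2 : 2 ≤ R.card := one_lt_card.2 ⟨t, ht, r, hr, htr⟩
  obtain ⟨m, rfl⟩ : ∃ m, n = m + 1 := ⟨n - 1, by omega⟩
  set o := s r (!β) with ho
  obtain ⟨j, hj⟩ : o.Nonempty := (hs r hr _).1
  let s' : ρ → Bool → Finset ℕ := fun u γ =>
    if x ∈ s u γ then (s u γ).erase x ∪ o else s u γ
  have hoA : o ⊆ A.erase x := fun i hi =>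
    mem_erase.2 ⟨fun h => hxo (h ▸ hi), (hs r hr _).2 hi⟩
  obtain ⟨r0, hr0, c, hc0, hc⟩ := ih m (by omega) (A.erase x) (R.erase r) s'
    (by rw [card_erase_of_mem hxA]; omega)
    (fun u hu γ => by
      have hu' := hs u (mem_of_mem_erase hu) γ
      by_cases h : x ∈ s u γ
      · simp only [s', if_pos h]
        exact ⟨⟨j, mem_union_right _ hj⟩, union_subset (erase_subset_erase _ hu'.2) hoA⟩
      · simp only [s', if_neg h]
        exact ⟨hu'.1, fun i hi => mem_erase.2 ⟨fun e => h (e ▸ hi), hu'.2 hi⟩⟩)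
    (by rw [card_erase_of_mem hxA, card_erase_of_mem hr]; omega)
    (fun K hK hKne => by
      have hKA : K ⊆ A := hK.trans (erase_subset _ _)
      have hxK : x ∉ K := fun h => by simpa using hK h
      by_cases hKo : ∃ i ∈ o, i ∈ K
      · obtain ⟨i, hio, hiK⟩ := hKo
        have hsub : insert r (mixed (R.erase r) s' K) ⊆ mixed R s (insert x K) := by
          intro u hu
          rcases mem_insert.1 hu with rfl | hu
          · refine mem_mixed.2 ⟨hr, fun γ => ?_⟩
            by_cases hγ : γ = β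
            · exact ⟨x, by simp [hγ, hx], mem_insert_self _ _⟩
            · exact ⟨i, by rwa [Bool.eq_not_of_ne hγ], mem_insert_of_mem hiK⟩
          · obtain ⟨h1, h2⟩ := mem_mixed.1 hu
            refine mem_mixed.2 ⟨mem_of_mem_erase h1, fun γ => ?_⟩
            by_cases h : x ∈ s u γ
            · exact ⟨x, h, mem_insert_self _ _⟩
            · obtain ⟨k, hk, hkK⟩ := h2 γ
              simp only [s', if_neg h] at hk
              exact ⟨k, hk, mem_insert_of_mem hkK⟩
        have hrn : r ∉ mixed (R.erase r) s' K := fun h => by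
          simpa using (mem_mixed.1 h).1
        have h1 := card_le_card hsub
        rw [card_insert_of_notMem hrn] at h1
        have h2 := hM (insert x K) (insert_subset hxA hKA) (insert_nonempty _ _)
        rw [card_insert_of_notMem hxK] at h2
        omega
      · refine lt_of_le_of_lt (card_le_card fun u hu => ?_) (hM K hKA hKne)
        obtain ⟨h1, h2⟩ := mem_mixed.1 hu
        refine mem_mixed.2 ⟨mem_of_mem_erase h1, fun γ => ?_⟩
        obtain ⟨k, hk, hkK⟩ := h2 γ
        by_cases h : x ∈ s u γ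
        · simp only [s', if_pos h] at hk
          rcases mem_union.1 hk with hk | hk
          · exact ⟨k, mem_of_mem_erase hk, hkK⟩
          · exact absurd ⟨k, hk, hkK⟩ hKo
        · simp only [s', if_neg h] at hk
          exact ⟨k, hk, hkK⟩)
  have key : ∀ u γ ε, (∀ i ∈ s' u γ, c i = ε) →
      ∀ i ∈ s u γ, (if i = x then c j else c i) = ε := by
    intro u γ ε h i hi
    by_cases hix : i = x
    · subst hix
      rw [if_pos rfl]
      exact h j (by simp only [s', if_pos hi]; exact mem_union_right _ hj)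
    · rw [if_neg hix]
      refine h i ?_
      by_cases hh : x ∈ s u γ
      · simp only [s', if_pos hh]; exact mem_union_left _ (mem_erase.2 ⟨hix, hi⟩)
      · simp only [s', if_neg hh]; exact hi
  have hoc : ∀ i ∈ o, c i = c j := by
    have : ∃ ε, ∀ i ∈ s' t δ, c i = ε := by
      by_cases h : t = r0
      · exact ⟨δ, h ▸ hc0 δ⟩
      · obtain ⟨γ, hγ⟩ := hc t (mem_erase.2 ⟨htr, ht⟩) h
        exact ⟨γ, hγ δ⟩
    obtain ⟨ε, hε⟩ := this
    have h2 : ∀ i ∈ o, c i = ε := fun i hi =>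
      hε i (by simp only [s', if_pos hxt]; exact mem_union_right _ hi)
    intro i hi
    rw [h2 i hi, h2 j hj]
  refine ⟨r0, mem_of_mem_erase hr0, fun i => if i = x then c j else c i,
    fun γ => key r0 γ γ (hc0 γ), fun u hu hu0 => ?_⟩
  by_cases hur : u = r
  · subst hur
    refine ⟨c j, fun γ i hi => ?_⟩
    by_cases hix : i = x
    · exact if_pos hix
    · refine (if_neg hix).trans ?_
      by_cases hγ : γ = β
      · rw [hγ, hx] at hi
        exact absurd (mem_singleton.1 hi) hix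
      · rw [Bool.eq_not_of_ne hγ] at hi
        exact hoc i hi
  · obtain ⟨γ, hγ⟩ := hc u (mem_erase.2 ⟨hur, hu⟩) hu0
    exact ⟨γ, fun ε => key u ε γ (hγ ε)⟩

end Pool.Agent.Lib.MP_71c87b_al
end

-- part Pool.Agent.Lib.MP_71c87b_al.Pres
section

/-!
# Presentations inside the free commutative monoid on the naturals
-/

namespace Pool.Agent.Lib.MP_71c87b_al

open Finset

/-- The free commutative monoid on the naturals. -/
abbrev FM : Type := ℕ →₀ ℕ

/-- The value of a factorization. -/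
noncomputable def wt : FM →+ ℕ := Finsupp.weight fun x : ℕ => x

/-- The congruence generated by a finite set of relations. -/
noncomputable def Gen (σ : Finset (FM × FM)) : AddCon FM := addConGen fun a b => (a, b) ∈ σ

/-- `σ` presents the monoid generated by the family `A`. -/
structure Pres (A : Finset ℕ) (σ : Finset (FM × FM)) : Prop where
  supp : ∀ r ∈ σ, r.1.support ⊆ A ∧ r.2.support ⊆ A ∧ wt r.1 = wt r.2
  gen : ∀ a b : FM, a.support ⊆ A → b.support ⊆ A → wt a = wt b → Gen σ a b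

theorem wt_single (x c : ℕ) : wt (Finsupp.single x c) = c * x := by
  simp [wt, Finsupp.weight_single]

theorem Gen.of {σ : Finset (FM × FM)} {r : FM × FM} (h : r ∈ σ) : Gen σ r.1 r.2 :=
  AddConGen.Rel.of _ _ h

theorem Gen.le {σ : Finset (FM × FM)} (c : AddCon FM) (h : ∀ r ∈ σ, c r.1 r.2) {a b : FM}
    (hab : Gen σ a b) : c a b :=
  (AddCon.addConGen_le.2 (fun a b hab => h (a, b) hab) : Gen σ ≤ c) hab

theorem Gen.mono {σ τ : Finset (FM × FM)} (h : σ ⊆ τ) {a b : FM} (hab : Gen σ a b) :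
    Gen τ a b := Gen.le _ (fun _ hr => Gen.of (h hr)) hab

theorem Gen.inv {σ : Finset (FM × FM)} (P : FM → Prop)
    (h : ∀ r ∈ σ, ∀ w, P (r.1 + w) ↔ P (r.2 + w)) {a b : FM} (hab : Gen σ a b) :
    P a ↔ P b := by
  let c : AddCon FM :=
    { r := fun p q => ∀ w, P (p + w) ↔ P (q + w)
      iseqv := ⟨fun _ _ => Iff.rfl, fun h w => (h w).symm, fun h h' w => (h w).trans (h' w)⟩
      add' := fun {p q p' q'} h h' w => by
        rw [add_assoc, h, add_left_comm, h', add_left_comm, add_assoc] }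
  simpa using (Gen.le c h hab : ∀ w, P (a + w) ↔ P (b + w)) 0

theorem supp_add {A : Finset ℕ} {a b : FM} :
    (a + b).support ⊆ A ↔ a.support ⊆ A ∧ b.support ⊆ A := by
  simp only [subset_iff, Finsupp.mem_support_iff, Finsupp.add_apply]
  exact ⟨fun h => ⟨fun x hx => h (by omega), fun x hx => h (by omega)⟩,
    fun h x hx => by by_cases h1 : a x = 0; exacts [h.2 (by omega), h.1 h1]⟩

theorem supp_smul {A : Finset ℕ} {a : FM} (k : ℕ) (h : a.support ⊆ A) :
    (k • a).support ⊆ A := Finsupp.support_smul.trans h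

theorem supp_single {A : Finset ℕ} {x : ℕ} (c : ℕ) (h : x ∈ A) :
    (Finsupp.single x c).support ⊆ A :=
  Finsupp.support_single_subset.trans (by simpa)

theorem wt_mem {A : Finset ℕ} {a : FM} (h : a.support ⊆ A) :
    wt a ∈ AddSubmonoid.closure (A : Set ℕ) := by
  rw [wt, Finsupp.weight_apply]
  exact AddSubmonoid.sum_mem _ fun i hi =>
    AddSubmonoid.nsmul_mem _ (AddSubmonoid.subset_closure (h hi)) _

theorem exists_wt {A : Finset ℕ} {n : ℕ} (h : n ∈ AddSubmonoid.closure (A : Set ℕ)) :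
    ∃ a : FM, a.support ⊆ A ∧ wt a = n := by
  induction h using AddSubmonoid.closure_induction with
  | mem x hx => exact ⟨Finsupp.single x 1, supp_single _ hx, by simp [wt_single]⟩
  | zero => exact ⟨0, by simp, by simp⟩
  | add x y _ _ hx hy =>
    obtain ⟨a, ha, rfl⟩ := hx
    obtain ⟨b, hb, rfl⟩ := hy
    exact ⟨a + b, supp_add.2 ⟨ha, hb⟩, map_add _ _ _⟩

theorem le_wt {a : FM} {x : ℕ} (h : x ∈ a.support) : x ≤ wt a := by
  rw [wt, Finsupp.weight_apply]
  refine le_trans ?_ (single_le_sum (f := fun i => a i • i) (fun _ _ => Nat.zero_le _) h)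
  exact Nat.le_mul_of_pos_left _ (Nat.pos_of_ne_zero (Finsupp.mem_support_iff.1 h))

theorem eq_zero_of_wt {A : Finset ℕ} (h0 : 0 ∉ A) {a : FM} (h : a.support ⊆ A)
    (hw : wt a = 0) : a = 0 := by
  by_contra hne
  obtain ⟨x, hx⟩ := Finsupp.support_nonempty_iff.2 hne
  have := le_wt hx
  exact h0 ((by omega : x = 0) ▸ h hx)

theorem Pres.ne_zero {A : Finset ℕ} {σ : Finset (FM × FM)} (h : Pres A σ) (h0 : 0 ∉ A)
    {r : FM × FM} (hr : r ∈ σ) : r.1 = 0 ↔ r.2 = 0 := by
  obtain ⟨h1, h2, h3⟩ := h.supp r hr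
  exact ⟨fun e => eq_zero_of_wt h0 h2 (by rw [← h3, e, map_zero]),
    fun e => eq_zero_of_wt h0 h1 (by rw [h3, e, map_zero])⟩

theorem Pres.face {A : Finset ℕ} {σ : Finset (FM × FM)} (h : Pres A σ) (h0 : 0 ∉ A)
    {W : Finset ℕ} (hW : W ⊂ A) (hne : W.Nonempty) :
    ∃ r ∈ σ, ¬ (r.1.support ⊆ W ↔ r.2.support ⊆ W) := by
  by_contra hc
  push Not at hc
  obtain ⟨x, hx⟩ := hne
  obtain ⟨y, hy, hyW⟩ := exists_of_ssubset hW
  have := (Gen.inv (fun p => p.support ⊆ W) (fun r hr w => by
      simp only [supp_add, hc r hr])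
    (h.gen (Finsupp.single x y) (Finsupp.single y x) (supp_single _ (hW.1 hx))
      (supp_single _ hy) (by simp [wt_single, mul_comm]))).1 (supp_single _ hx)
  refine hyW (this ?_)
  simp only [Finsupp.mem_support_iff, Finsupp.single_eq_same]
  exact fun e => h0 (hW.1 (e ▸ hx))

theorem Pres.alive {A : Finset ℕ} {σ : Finset (FM × FM)} (h : Pres A σ) (h0 : 0 ∉ A)
    (n : ℕ) : ∀ W : Finset ℕ, W.card = n → W ⊂ A →
      n ≤ (σ.filter fun r => r.1.support ⊆ W ∨ r.2.support ⊆ W).card := by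
  classical
  induction n with
  | zero => simp
  | succ n ih =>
    intro W hn hW
    obtain ⟨r, hr, hrW⟩ := h.face h0 hW (card_pos.1 (by omega))
    have hz := h.ne_zero h0 hr
    have : ∃ x ∈ W, ¬ (r.1.support ⊆ W.erase x ∨ r.2.support ⊆ W.erase x) ∧
        (r.1.support ⊆ W ∨ r.2.support ⊆ W) := by
      by_cases h1 : r.1.support ⊆ W
      · have h2 : ¬ r.2.support ⊆ W := by tauto
        obtain ⟨x, hx⟩ := Finsupp.support_nonempty_iff.2
          (fun e => h2 (by simp [hz.1 e]) : r.1 ≠ 0)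
        exact ⟨x, h1 hx, fun e => e.elim (fun e => by simpa using e hx)
          fun e => h2 (e.trans (erase_subset _ _)), Or.inl h1⟩
      · have h2 : r.2.support ⊆ W := by tauto
        obtain ⟨x, hx⟩ := Finsupp.support_nonempty_iff.2
          (fun e => h1 (by simp [hz.2 e]) : r.2 ≠ 0)
        exact ⟨x, h2 hx, fun e => e.elim (fun e => h1 (e.trans (erase_subset _ _)))
          fun e => by simpa using e hx, Or.inr h2⟩
    obtain ⟨x, hx, h1, h2⟩ := this
    have := ih (W.erase x) (by rw [card_erase_of_mem hx]; omega)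
      (Finset.ssubset_of_subset_of_ssubset (erase_subset _ _) hW)
    refine lt_of_le_of_lt this (card_lt_card ⟨fun t ht => ?_, fun e => ?_⟩)
    · rw [mem_filter] at ht ⊢
      exact ⟨ht.1, ht.2.imp (·.trans (erase_subset _ _)) (·.trans (erase_subset _ _))⟩
    · exact h1 (mem_filter.1 (e (mem_filter.2 ⟨hr, h2⟩))).2

theorem Pres.card_le {A : Finset ℕ} {σ : Finset (FM × FM)} (h : Pres A σ) (h0 : 0 ∉ A) :
    A.card ≤ σ.card + 1 := by
  rcases A.eq_empty_or_nonempty with rfl | ⟨x, hx⟩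
  · simp
  have := (h.alive h0 _ (A.erase x) rfl (erase_ssubset hx)).trans (card_filter_le _ _)
  rw [card_erase_of_mem hx] at this
  omega

theorem Pres.filter {A : Finset ℕ} {σ : Finset (FM × FM)} (h : Pres A σ) (h0 : 0 ∉ A) :
    Pres A (σ.filter fun r => r.1 ≠ 0) := by
  refine ⟨fun r hr => h.supp r (mem_filter.1 hr).1, fun a b ha hb hab =>
    Gen.le _ (fun r hr => ?_) (h.gen a b ha hb hab)⟩
  by_cases h1 : r.1 = 0
  · rw [h1, (h.ne_zero h0 hr).1 h1]
    exact (Gen _).refl _
  · exact Gen.of (mem_filter.2 ⟨hr, h1⟩)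

/-- The two sides of a relation. -/
def side (r : FM × FM) (β : Bool) : Finset ℕ := (cond β r.2 r.1).support

theorem Pres.mixed_lt {A : Finset ℕ} {σ : Finset (FM × FM)} (h : Pres A σ) (h0 : 0 ∉ A)
    (hc : σ.card < A.card) (K : Finset ℕ) (hK : K ⊆ A) (hne : K.Nonempty) :
    (mixed σ side K).card < K.card := by
  classical
  have h1 := h.alive h0 _ (A \ K) rfl (sdiff_ssubset hK hne)
  have h2 : Disjoint (mixed σ side K)
      (σ.filter fun r => r.1.support ⊆ A \ K ∨ r.2.support ⊆ A \ K) := by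
    refine disjoint_left.2 fun r hr hr' => ?_
    rcases (mem_filter.1 hr').2 with e | e
    · obtain ⟨i, hi, hiK⟩ := (mem_mixed.1 hr).2 false
      exact (mem_sdiff.1 (e hi)).2 hiK
    · obtain ⟨i, hi, hiK⟩ := (mem_mixed.1 hr).2 true
      exact (mem_sdiff.1 (e hi)).2 hiK
  have h3 := card_le_card (union_subset (fun r hr => (mem_mixed.1 hr).1) (filter_subset _ _) :
    mixed σ side K ∪ (σ.filter fun r => r.1.support ⊆ A \ K ∨ r.2.support ⊆ A \ K) ⊆ σ)
  rw [card_union_of_disjoint h2] at h3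
  rw [card_sdiff_of_subset hK] at h1
  have := card_le_card hK
  omega

theorem gcd_dvd_of_mem {B : Finset ℕ} {n : ℕ} (h : n ∈ AddSubmonoid.closure (B : Set ℕ)) :
    B.gcd id ∣ n := by
  induction h using AddSubmonoid.closure_induction with
  | mem x hx => exact Finset.gcd_dvd (f := id) hx
  | zero => simp
  | add x y _ _ hx hy => exact dvd_add hx hy

theorem exists_big (B : Finset ℕ) :
    ∃ n, ∀ m ≥ n, B.gcd id ∣ m → m ∈ AddSubmonoid.closure (B : Set ℕ) := by
  obtain ⟨n, hn⟩ := Nat.exists_mem_closure_of_ge (B : Set ℕ)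
  exact ⟨n, fun m hm hd => hn m hm
    ((Finset.dvd_gcd fun b hb => Nat.setGcd_dvd_of_mem hb).trans hd)⟩

end Pool.Agent.Lib.MP_71c87b_al
end

-- part Pool.Agent.Lib.MP_71c87b_al.Delorme
section

/-!
# The gluing theorem of Delorme, for families of generators
-/

namespace Pool.Agent.Lib.MP_71c87b_al

open Finset

/-- The part of a factorization supported in `B`. -/
noncomputable def inn (B : Finset ℕ) : FM →+ FM := Finsupp.filterAddHom (· ∈ B)

/-- The part of a factorization supported outside `B`. -/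
noncomputable def out (B : Finset ℕ) : FM →+ FM := Finsupp.filterAddHom (· ∉ B)

theorem inn_apply (B : Finset ℕ) (a : FM) (x : ℕ) : inn B a x = if x ∈ B then a x else 0 :=
  Finsupp.filter_apply _ _ _

theorem out_apply (B : Finset ℕ) (a : FM) (x : ℕ) : out B a x = if x ∉ B then a x else 0 :=
  Finsupp.filter_apply _ _ _

theorem inn_add_out (B : Finset ℕ) (a : FM) : inn B a + out B a = a :=
  Finsupp.filter_add_filter_not a (· ∈ B)

theorem inn_supp (B : Finset ℕ) (a : FM) : (inn B a).support ⊆ B := fun x hx => by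
  by_contra h
  simp [inn_apply, h] at hx

theorem out_supp {B C : Finset ℕ} {a : FM} (h : a.support ⊆ B ∪ C) :
    (out B a).support ⊆ C := fun x hx => by
  have h1 : x ∉ B ∧ a x ≠ 0 := by simpa [out_apply] using hx
  exact (mem_union.1 (h (Finsupp.mem_support_iff.2 h1.2))).resolve_left h1.1

theorem of_in {B : Finset ℕ} {a : FM} (h : a.support ⊆ B) : inn B a = a ∧ out B a = 0 := by
  have : ∀ x, x ∉ B → a x = 0 := fun x hx =>
    by_contra fun e => hx (h (Finsupp.mem_support_iff.2 e))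
  constructor <;> ext x <;> by_cases hx : x ∈ B <;> simp [inn_apply, out_apply, hx, this]

theorem of_out {B C : Finset ℕ} (hd : Disjoint B C) {a : FM} (h : a.support ⊆ C) :
    inn B a = 0 ∧ out B a = a := by
  have : ∀ x, x ∈ B → a x = 0 := fun x hx =>
    by_contra fun e => disjoint_left.1 hd hx (h (Finsupp.mem_support_iff.2 e))
  constructor <;> ext x <;> by_cases hx : x ∈ B <;> simp [inn_apply, out_apply, hx, this]

theorem pres_part {A B C : Finset ℕ} {σ : Finset (FM × FM)} (h : Pres A σ) (hB : B ⊆ A)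
    (hd : Disjoint B C) {u v : FM} (hu : u.support ⊆ B) (hv : v.support ⊆ C)
    (hpos : 0 < wt v)
    (hσ : ∀ r ∈ σ, (r.1.support ⊆ B ∧ r.2.support ⊆ B) ∨
      (r.1.support ⊆ C ∧ r.2.support ⊆ C) ∨ r = (u, v) ∨ r = (v, u)) :
    Pres B (σ.filter fun r => r.1.support ⊆ B ∧ r.2.support ⊆ B) := by
  classical
  refine ⟨fun r hr => ⟨(mem_filter.1 hr).2.1, (mem_filter.1 hr).2.2,
    (h.supp r (mem_filter.1 hr).1).2.2⟩, fun a b ha hb hab => ?_⟩
  set τ := σ.filter fun r => r.1.support ⊆ B ∧ r.2.support ⊆ B with hτ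
  let P : FM → Prop := fun p => ∃ k, wt (out B p) = k * wt v ∧ Gen τ a (inn B p + k • u)
  have root : ∀ w, P (u + w) ↔ P (v + w) := fun w => by
    simp only [P, map_add, of_in hu, of_out hd hv, zero_add]
    constructor
    · rintro ⟨k, h1, h2⟩
      refine ⟨k + 1, by rw [h1]; ring, ?_⟩
      rwa [succ_nsmul, ← add_assoc, add_comm, ← add_assoc]
    · rintro ⟨k, h1, h2⟩
      obtain ⟨k, rfl⟩ : ∃ j, k = j + 1 := ⟨k - 1, by
        rcases k with _ | k
        · omega
        · rfl⟩
      refine ⟨k, by rw [add_mul] at h1; omega, ?_⟩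
      rwa [succ_nsmul, ← add_assoc, add_comm, ← add_assoc] at h2
  have := (Gen.inv P (fun r hr w => ?_) (h.gen a b (ha.trans hB) (hb.trans hB) hab)).1
    ⟨0, by simp [of_in ha], by simpa [of_in ha] using (Gen τ).refl a⟩
  · obtain ⟨k, h1, h2⟩ := this
    rw [(of_in hb).2, map_zero] at h1
    have hk : k = 0 := (Nat.mul_eq_zero.1 h1.symm).resolve_right hpos.ne'
    simpa [hk, of_in hb] using h2
  rcases hσ r hr with e | e | rfl | rfl
  · have hr' : Gen τ r.1 r.2 := Gen.of (mem_filter.2 ⟨hr, e⟩)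
    simp only [P, map_add, of_in e.1, of_in e.2]
    refine exists_congr fun k => and_congr_right fun _ => ?_
    have := (Gen τ).add ((Gen τ).add hr' ((Gen τ).refl (inn B w))) ((Gen τ).refl (k • u))
    exact ⟨fun h => (Gen τ).trans h this, fun h => (Gen τ).trans h ((Gen τ).symm this)⟩
  · simp only [P, map_add, of_out hd e.1, of_out hd e.2, (h.supp r hr).2.2]
  · exact root w
  · exact (root w).symm

theorem root_eq {B C : Finset ℕ} {σ : Finset (FM × FM)} (h : Pres (B ∪ C) σ)
    (hd : Disjoint B C) {u v : FM} (hu : u.support ⊆ B) (hv : v.support ⊆ C)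
    (huv : wt u = wt v) (hpos : 0 < wt v)
    (hσ : ∀ r ∈ σ, (r.1.support ⊆ B ∧ r.2.support ⊆ B) ∨
      (r.1.support ⊆ C ∧ r.2.support ⊆ C) ∨ r = (u, v) ∨ r = (v, u)) :
    Nat.lcm (B.gcd id) (C.gcd id) = wt v := by
  have h1 : Nat.lcm (B.gcd id) (C.gcd id) ∣ wt v :=
    Nat.lcm_dvd (huv ▸ gcd_dvd_of_mem (wt_mem hu)) (gcd_dvd_of_mem (wt_mem hv))
  refine Nat.dvd_antisymm ?_ ?_
  · exact h1
  set l := Nat.lcm (B.gcd id) (C.gcd id) with hl
  obtain ⟨n, hn⟩ := exists_big B
  obtain ⟨m, hm⟩ := exists_big C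
  have hM : n + m ≤ (n + m) * wt v := Nat.le_mul_of_pos_right _ hpos
  set M := (n + m) * wt v with hMd
  have hlM : l ∣ M := h1.mul_left _
  obtain ⟨p, hp, ep⟩ := exists_wt (hn (M + l) (by omega)
    ((Nat.dvd_lcm_left _ _).trans (dvd_add hlM dvd_rfl)))
  obtain ⟨p', hp', ep'⟩ := exists_wt (hn M (by omega) ((Nat.dvd_lcm_left _ _).trans hlM))
  obtain ⟨q, hq, eq⟩ := exists_wt (hm (M + l) (by omega)
    ((Nat.dvd_lcm_right _ _).trans (dvd_add hlM dvd_rfl)))
  obtain ⟨q', hq', eq'⟩ := exists_wt (hm M (by omega) ((Nat.dvd_lcm_right _ _).trans hlM))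
  have := (Gen.inv (fun a => wt v ∣ wt (inn B a)) (fun r hr w => ?_)
    (h.gen (p' + q) (p + q')
      (supp_add.2 ⟨hp'.trans subset_union_left, hq.trans subset_union_right⟩)
      (supp_add.2 ⟨hp.trans subset_union_left, hq'.trans subset_union_right⟩)
      (by simp only [map_add]; omega))).1
      (by simp only [map_add, of_in hp', of_out hd hq, ep', add_zero]
          exact dvd_mul_left _ _)
  · simp only [map_add, of_in hp, of_out hd hq', ep, add_zero] at this
    exact (Nat.dvd_add_right (dvd_mul_left _ _)).1 this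
  rcases hσ r hr with e | e | rfl | rfl
  · simp only [map_add, of_in e.1, of_in e.2, (h.supp r hr).2.2]
  · simp only [map_add, of_out hd e.1, of_out hd e.2]
  · simp only [map_add, of_in hu, of_out hd hv, huv, zero_add]
    exact Nat.dvd_add_right dvd_rfl
  · simp only [map_add, of_in hu, of_out hd hv, huv, zero_add]
    exact (Nat.dvd_add_right dvd_rfl).symm

theorem glued_of_pres (n : ℕ) : ∀ (A : Finset ℕ) (σ : Finset (FM × FM)), A.card = n →
    0 ∉ A → Pres A σ → σ.card < A.card → Glued A := by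
  classical
  induction n using Nat.strong_induction_on with
  | _ n ih =>
  intro A σ0 hn h0 h' hc0
  by_cases h1 : A.card = 1
  · obtain ⟨a, rfl⟩ := card_eq_one.1 h1
    exact Glued.single a fun e => h0 (by simp [e])
  have h := h'.filter h0
  set σ := σ0.filter fun r => r.1 ≠ 0 with hσ
  have hc : σ.card < A.card := lt_of_le_of_lt (card_filter_le _ _) hc0
  have hne : ∀ r ∈ σ, r.1 ≠ 0 ∧ r.2 ≠ 0 := fun r hr =>
    ⟨(mem_filter.1 hr).2, fun e => (mem_filter.1 hr).2 ((h.ne_zero h0 hr).2 e)⟩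
  have hM := h.mixed_lt h0 hc
  obtain ⟨r0, hr0, c, hc0, hcr⟩ := exists_root (A.card - 2) A σ side (by omega)
    (fun r hr β => by
      cases β
      · exact ⟨Finsupp.support_nonempty_iff.2 (hne r hr).1, (h.supp r hr).1⟩
      · exact ⟨Finsupp.support_nonempty_iff.2 (hne r hr).2, (h.supp r hr).2.1⟩)
    (by have := h.card_le h0; omega) hM
  let D : Bool → Finset ℕ := fun β => A.filter fun i => c i = β
  have hDA : ∀ β, D β ⊆ A := fun β => filter_subset _ _
  have hu : r0.1.support ⊆ D false := fun i hi =>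
    mem_filter.2 ⟨(h.supp r0 hr0).1 hi, hc0 false i hi⟩
  have hv : r0.2.support ⊆ D true := fun i hi =>
    mem_filter.2 ⟨(h.supp r0 hr0).2.1 hi, hc0 true i hi⟩
  have hd : Disjoint (D false) (D true) := disjoint_left.2 fun i h1 h2 => by
    have := (mem_filter.1 h1).2.symm.trans (mem_filter.1 h2).2
    simp at this
  have hun : D false ∪ D true = A := by
    ext i
    cases hi : c i <;> simp [D, hi]
  have huv := (h.supp r0 hr0).2.2
  have hpos : 0 < wt r0.2 := Nat.pos_of_ne_zero fun e =>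
    (hne r0 hr0).2 (eq_zero_of_wt h0 (h.supp r0 hr0).2.1 e)
  have hall : ∀ r ∈ σ, (r.1.support ⊆ D false ∧ r.2.support ⊆ D false) ∨
      (r.1.support ⊆ D true ∧ r.2.support ⊆ D true) ∨ r = (r0.1, r0.2) ∨ r = (r0.2, r0.1) := by
    intro r hr
    by_cases e : r = r0
    · exact Or.inr (Or.inr (Or.inl e))
    obtain ⟨γ, hγ⟩ := hcr r hr e
    have : r.1.support ⊆ D γ ∧ r.2.support ⊆ D γ :=
      ⟨fun i hi => mem_filter.2 ⟨(h.supp r hr).1 hi, hγ false i hi⟩,
        fun i hi => mem_filter.2 ⟨(h.supp r hr).2.1 hi, hγ true i hi⟩⟩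
    cases γ
    exacts [Or.inl this, Or.inr (Or.inl this)]
  have hne0 : (D false).Nonempty := (Finsupp.support_nonempty_iff.2 (hne r0 hr0).1).mono hu
  have hne1 : (D true).Nonempty := (Finsupp.support_nonempty_iff.2 (hne r0 hr0).2).mono hv
  have hcard := card_union_of_disjoint hd
  rw [hun] at hcard
  have hcnt : ∀ K ⊆ A, K.Nonempty →
      (σ.filter fun r => r.1.support ⊆ K ∧ r.2.support ⊆ K).card < K.card := fun K hK hKn => by
    refine lt_of_le_of_lt (card_le_card fun r hr => ?_) (hM K hK hKn)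
    obtain ⟨hr, e1, e2⟩ := mem_filter.1 hr
    refine mem_mixed.2 ⟨hr, fun β => ?_⟩
    cases β
    · obtain ⟨i, hi⟩ := Finsupp.support_nonempty_iff.2 (hne r hr).1
      exact ⟨i, hi, e1 hi⟩
    · obtain ⟨i, hi⟩ := Finsupp.support_nonempty_iff.2 (hne r hr).2
      exact ⟨i, hi, e2 hi⟩
  have g0 := ih _ (by have := hne1.card_pos; omega) (D false) _ rfl (fun e => h0 (hDA _ e))
    (pres_part h (hDA _) hd hu hv hpos hall) (hcnt _ (hDA _) hne0)
  have g1 := ih _ (by have := hne0.card_pos; omega) (D true) _ rfl (fun e => h0 (hDA _ e))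
    (pres_part h (hDA _) hd.symm hv hu (huv ▸ hpos) fun r hr => by
      have := hall r hr; tauto) (hcnt _ (hDA _) hne1)
  have hl := root_eq (hun ▸ h) hd hu hv huv hpos hall
  exact hun ▸ Glued.glue _ _ g0 g1 hd (hl ▸ huv ▸ wt_mem hu) (hl ▸ wt_mem hv)

theorem Glued.zero_notMem {A : Finset ℕ} (h : Glued A) : 0 ∉ A := by
  induction h with
  | single a ha => simpa using ha.symm
  | glue B C _ _ _ _ _ h1 h2 => simp [h1, h2]

theorem Glued.nonempty {A : Finset ℕ} (h : Glued A) : A.Nonempty := by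
  induction h with
  | single a ha => simp
  | glue B C _ _ _ _ _ h1 h2 => exact h1.mono subset_union_left

theorem pres_of_glued {A : Finset ℕ} (h : Glued A) :
    ∃ σ, Pres A σ ∧ σ.card < A.card := by
  classical
  induction h with
  | single x hx =>
    refine ⟨∅, ⟨by simp, fun a b ha hb hab => ?_⟩, by simp⟩
    obtain ⟨k, rfl⟩ : ∃ k, a = Finsupp.single x k :=
      ⟨_, Finsupp.support_subset_singleton.1 ha⟩
    obtain ⟨l, rfl⟩ : ∃ k, b = Finsupp.single x k :=
      ⟨_, Finsupp.support_subset_singleton.1 hb⟩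
    rw [wt_single, wt_single] at hab
    rw [Nat.eq_of_mul_eq_mul_right (Nat.pos_of_ne_zero hx) hab]
    exact (Gen _).refl _
  | glue B C _ _ hd hB hC ih1 ih2 =>
    obtain ⟨σ, hσ, cσ⟩ := ih1
    obtain ⟨τ, hτ, cτ⟩ := ih2
    obtain ⟨u, hu, eu⟩ := exists_wt hB
    obtain ⟨v, hv, ev⟩ := exists_wt hC
    set ρ := insert (u, v) (σ ∪ τ) with hρ
    have key : ∀ p q : FM, p.support ⊆ B ∪ C → q.support ⊆ B ∪ C → wt p = wt q →
        wt (inn B q) ≤ wt (inn B p) → Gen ρ p q := by
      intro p q hp hq hpq hle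
      have e1 := congrArg wt (inn_add_out B p)
      have e2 := congrArg wt (inn_add_out B q)
      rw [map_add] at e1 e2
      obtain ⟨k, hk⟩ : Nat.lcm (B.gcd id) (C.gcd id) ∣ wt (inn B p) - wt (inn B q) := by
        refine Nat.lcm_dvd (Nat.dvd_sub (gcd_dvd_of_mem (wt_mem (inn_supp B p)))
          (gcd_dvd_of_mem (wt_mem (inn_supp B q)))) ?_
        rw [show wt (inn B p) - wt (inn B q) = wt (out B q) - wt (out B p) by omega]
        exact Nat.dvd_sub (gcd_dvd_of_mem (wt_mem (out_supp hq)))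
          (gcd_dvd_of_mem (wt_mem (out_supp hp)))
      have g1 : Gen ρ (inn B p) (inn B q + k • u) :=
        Gen.mono (subset_union_left.trans (subset_insert _ _)) (hσ.gen _ _ (inn_supp _ _)
          (supp_add.2 ⟨inn_supp _ _, supp_smul _ hu⟩) (by
            rw [map_add, map_nsmul, eu, smul_eq_mul, mul_comm]; omega))
      have g2 : Gen ρ (k • v + out B p) (out B q) :=
        Gen.mono (subset_union_right.trans (subset_insert _ _)) (hτ.gen _ _
          (supp_add.2 ⟨supp_smul _ hv, out_supp hp⟩) (out_supp hq) (by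
            rw [map_add, map_nsmul, ev, smul_eq_mul, mul_comm]; omega))
      have g3 : Gen ρ (k • u) (k • v) := (Gen ρ).nsmul k (Gen.of (mem_insert_self (u, v) _))
      have g4 := (Gen ρ).add ((Gen ρ).trans g1 ((Gen ρ).add ((Gen ρ).refl _) g3))
        ((Gen ρ).refl (out B p))
      rw [inn_add_out, add_assoc] at g4
      have g5 := (Gen ρ).trans g4 ((Gen ρ).add ((Gen ρ).refl _) g2)
      rwa [inn_add_out] at g5
    refine ⟨ρ, ⟨fun r hr => ?_, fun p q hp hq hpq => ?_⟩, ?_⟩
    · rcases mem_insert.1 hr with rfl | hr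
      · exact ⟨hu.trans subset_union_left, hv.trans subset_union_right, eu.trans ev.symm⟩
      rcases mem_union.1 hr with hr | hr
      · exact ⟨(hσ.supp r hr).1.trans subset_union_left,
          (hσ.supp r hr).2.1.trans subset_union_left, (hσ.supp r hr).2.2⟩
      · exact ⟨(hτ.supp r hr).1.trans subset_union_right,
          (hτ.supp r hr).2.1.trans subset_union_right, (hτ.supp r hr).2.2⟩
    · rcases le_total (wt (inn B q)) (wt (inn B p)) with h | h
      · exact key p q hp hq hpq h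
      · exact (Gen ρ).symm (key q p hq hp hpq.symm h)
    · have := card_insert_le (u, v) (σ ∪ τ)
      have := card_union_le σ τ
      rw [card_union_of_disjoint hd, hρ]
      omega

end Pool.Agent.Lib.MP_71c87b_al
end

-- part Pool.Agent.Lib.MP_71c87b_al.Trans
section

/-!
# Complete intersections are the numerical semigroups generated by glued sets
-/

namespace Pool.Agent.Lib.MP_71c87b_al

open Finset

theorem add_eq_single {a w : FM} {x : ℕ} (h : a + w = Finsupp.single x 1) :
    a = 0 ∨ (a = Finsupp.single x 1 ∧ w = 0) := by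
  have h' : ∀ y, a y + w y = Finsupp.single x 1 y := fun y => DFunLike.congr_fun h y
  by_cases h1 : a x = 0
  · left
    ext y
    have := h' y
    by_cases hy : y = x
    · simp [hy, h1]
    · rw [Finsupp.single_eq_of_ne hy] at this
      simp only [Finsupp.coe_zero, Pi.zero_apply]; omega
  · have hw : w = 0 := by
      ext y
      have := h' y
      by_cases hy : y = x
      · rw [hy, Finsupp.single_eq_same] at this
        simp only [hy, Finsupp.coe_zero, Pi.zero_apply]; omega
      · rw [Finsupp.single_eq_of_ne hy] at this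
        simp only [Finsupp.coe_zero, Pi.zero_apply]; omega
    exact Or.inr ⟨by simpa [hw] using h, hw⟩

theorem Pres.elim {A : Finset ℕ} {σ : Finset (FM × FM)} (h : Pres A σ) (h0 : 0 ∉ A) {x : ℕ}
    (hx : x ∈ A) (hc : x ∈ AddSubmonoid.closure (A.erase x : Set ℕ)) :
    ∃ τ, Pres (A.erase x) τ ∧ τ.card < σ.card := by
  classical
  obtain ⟨b0, hb0, eb0⟩ := exists_wt hc
  set e : FM := Finsupp.single x 1 with he
  have hwe : wt e = x := by simp [he, wt_single]
  obtain ⟨r, hr, hre⟩ : ∃ r ∈ σ, ¬ (r.1 = e ↔ r.2 = e) := by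
    by_contra hc
    push Not at hc
    have := (Gen.inv (fun p => p = e) (fun r hr w => ?_)
      (h.gen e b0 (supp_single _ hx) (hb0.trans (erase_subset _ _)) (hwe.trans eb0.symm))).1 rfl
    · simpa using hb0 (show x ∈ b0.support by simp [this, he])
    have hz := h.ne_zero h0 hr
    constructor
    · intro h1
      rcases add_eq_single h1 with h2 | h2
      · rwa [hz.1 h2, ← h2]
      · rw [(hc r hr).1 h2.1, h2.2, add_zero]
    · intro h1
      rcases add_eq_single h1 with h2 | h2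
      · rwa [hz.2 h2, ← h2]
      · rw [(hc r hr).2 h2.1, h2.2, add_zero]
  obtain ⟨b, hbA, hbe, hbw, hrb⟩ : ∃ b : FM, b.support ⊆ A ∧ b ≠ e ∧ wt b = x ∧
      (r = (e, b) ∨ r = (b, e)) := by
    obtain ⟨h1, h2, h3⟩ := h.supp r hr
    by_cases h4 : r.1 = e
    · exact ⟨r.2, h2, by tauto, by rw [← h3, h4, hwe], Or.inl (Prod.ext h4 rfl)⟩
    · have h5 : r.2 = e := by tauto
      exact ⟨r.1, h1, h4, by rw [h3, h5, hwe], Or.inr (Prod.ext rfl h5)⟩
  have hbx : b x = 0 := by
    by_contra hne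
    have h1 : (b - e) + e = b := Finsupp.sub_add_single_one_cancel hne
    have h2 : b - e = 0 := eq_zero_of_wt h0 (supp_add.1 (h1.symm ▸ hbA)).1 (by
      have := congrArg wt h1
      rw [map_add] at this; omega)
    exact hbe (by rw [← h1, h2, zero_add])
  have hsub : ∀ a : FM, a.support ⊆ A → a x = 0 → a.support ⊆ A.erase x := fun a ha hax i hi =>
    mem_erase.2 ⟨fun e => Finsupp.mem_support_iff.1 hi (e ▸ hax), ha hi⟩
  let ψ : FM → FM := fun a => a.erase x + a x • b
  have ψadd : ∀ p q, ψ (p + q) = ψ p + ψ q := fun p q => by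
    simp only [ψ, Finsupp.erase_add, Finsupp.add_apply, add_smul]; abel
  have ψid : ∀ a : FM, a x = 0 → ψ a = a := fun a ha => by
    simp only [ψ, ha, zero_smul, add_zero]
    exact Finsupp.erase_of_notMem_support (by simp [ha])
  have ψe : ψ e = b := by simp [ψ, he]
  have ψw : ∀ a, wt (ψ a) = wt a := fun a => by
    conv_rhs => rw [← Finsupp.erase_add_single x a]
    simp only [ψ, map_add, map_nsmul, hbw, wt_single, smul_eq_mul]
  have ψs : ∀ a : FM, a.support ⊆ A → (ψ a).support ⊆ A.erase x := fun a ha =>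
    supp_add.2 ⟨by rw [Finsupp.support_erase]; exact erase_subset_erase _ ha,
      supp_smul _ (hsub b hbA hbx)⟩
  refine ⟨(σ.erase r).image fun t => (ψ t.1, ψ t.2), ⟨fun t ht => ?_, fun p q hp hq hpq => ?_⟩,
    lt_of_le_of_lt card_image_le (card_erase_lt_of_mem hr)⟩
  · obtain ⟨s, hs, rfl⟩ := mem_image.1 ht
    obtain ⟨h1, h2, h3⟩ := h.supp s (mem_of_mem_erase hs)
    exact ⟨ψs _ h1, ψs _ h2, by simp only [ψw, h3]⟩
  · have := Gen.le (AddCon.comap ψ ψadd (Gen ((σ.erase r).image fun t => (ψ t.1, ψ t.2))))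
      (fun t ht => by
        rw [AddCon.comap_rel]
        by_cases htr : t = r
        · rcases hrb with rfl | rfl <;> rw [htr] <;> simp only [ψe, ψid b hbx] <;>
            exact (Gen _).refl _
        · exact Gen.of (r := (ψ t.1, ψ t.2)) (mem_image_of_mem _ (mem_erase.2 ⟨htr, ht⟩)))
      (h.gen p q (hp.trans (erase_subset _ _)) (hq.trans (erase_subset _ _)) hpq)
    rwa [AddCon.comap_rel, ψid p (by_contra fun e => by
      simpa using hp (Finsupp.mem_support_iff.2 e)), ψid q (by_contra fun e => by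
      simpa using hq (Finsupp.mem_support_iff.2 e))] at this

theorem closure_gens (S : AddSubmonoid ℕ) : AddSubmonoid.closure (gens S) = S := by
  refine le_antisymm (AddSubmonoid.closure_le.2 fun x hx => hx.1) fun x hx => ?_
  induction x using Nat.strong_induction_on with
  | _ x ih =>
  by_cases h0 : x = 0
  · exact h0 ▸ zero_mem _
  by_cases h : x ∈ gens S
  · exact AddSubmonoid.subset_closure h
  simp only [gens, Set.mem_ofPred_eq, hx, h0, true_and, ne_eq, not_false_eq_true] at h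
  push Not at h
  obtain ⟨y, hy, z, hz, rfl, h1, h2⟩ := h
  exact add_mem (ih y (by omega) hy) (ih z (by omega) hz)

theorem gens_subset {A : Set ℕ} : gens (AddSubmonoid.closure A) ⊆ A := by
  rintro x ⟨hx, h0, h⟩
  induction hx using AddSubmonoid.closure_induction with
  | mem x hx => exact hx
  | zero => exact absurd rfl h0
  | add y z hy hz ih1 ih2 =>
    rcases h y hy z hz rfl with rfl | rfl
    · rw [zero_add] at h0 h ⊢; exact ih2 h0 h
    · rw [add_zero] at h0 h ⊢; exact ih1 h0 h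

theorem gens_finite (S : AddSubmonoid ℕ) : (gens S).Finite := by
  obtain ⟨A, rfl⟩ := Nat.addSubmonoid_fg S
  exact A.finite_toSet.subset gens_subset

theorem mem_closure_erase {A : Finset ℕ} {x y : ℕ}
    (hy : y ∈ AddSubmonoid.closure (A : Set ℕ)) (h : y < x) :
    y ∈ AddSubmonoid.closure (A.erase x : Set ℕ) := by
  obtain ⟨a, ha, rfl⟩ := exists_wt hy
  exact wt_mem fun i hi => mem_erase.2 ⟨((le_wt hi).trans_lt h).ne, ha hi⟩

theorem pres_gens (n : ℕ) : ∀ (A : Finset ℕ) (σ : Finset (FM × FM)), A.card = n → 0 ∉ A →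
    Pres A σ → σ.card < A.card →
    ∃ τ, Pres (gens_finite (AddSubmonoid.closure (A : Set ℕ))).toFinset τ ∧
      τ.card < (gens_finite (AddSubmonoid.closure (A : Set ℕ))).toFinset.card := by
  induction n with
  | zero => intro A σ h _ _ h'; omega
  | succ n ih =>
    intro A σ hn h0 h hc
    by_cases hA : ∀ x ∈ A, x ∈ gens (AddSubmonoid.closure (A : Set ℕ))
    · have : (gens_finite (AddSubmonoid.closure (A : Set ℕ))).toFinset = A := by
        ext x
        exact ⟨fun hx => gens_subset ((Set.Finite.mem_toFinset _).1 hx),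
          fun hx => (Set.Finite.mem_toFinset _).2 (hA x hx)⟩
      exact ⟨σ, this.symm ▸ h, this.symm ▸ hc⟩
    push Not at hA
    obtain ⟨x, hx, hg⟩ := hA
    have hx0 : x ≠ 0 := fun e => h0 (e ▸ hx)
    have hxm : x ∈ AddSubmonoid.closure (A : Set ℕ) := AddSubmonoid.subset_closure hx
    simp only [gens, Set.mem_ofPred_eq, hxm, hx0, true_and, ne_eq, not_false_eq_true] at hg
    push Not at hg
    obtain ⟨y, hy, z, hz, e, h1, h2⟩ := hg
    have hxc : x ∈ AddSubmonoid.closure (A.erase x : Set ℕ) := by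
      have := add_mem (mem_closure_erase hy (by omega : y < x))
        (mem_closure_erase hz (by omega : z < x))
      rwa [← e] at this
    obtain ⟨τ, hτ, hlt⟩ := h.elim h0 hx hxc
    have hcl : AddSubmonoid.closure (A.erase x : Set ℕ) = AddSubmonoid.closure (A : Set ℕ) := by
      refine le_antisymm (AddSubmonoid.closure_mono (coe_subset.2 (erase_subset _ _)))
        (AddSubmonoid.closure_le.2 fun i hi => ?_)
      by_cases e : i = x
      · exact e ▸ hxc
      · exact AddSubmonoid.subset_closure (mem_coe.2 (mem_erase.2 ⟨e, hi⟩))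
    have := ih (A.erase x) τ (by rw [card_erase_of_mem hx]; omega)
      (fun e => h0 (mem_of_mem_erase e)) hτ (by rw [card_erase_of_mem hx]; omega)
    rwa [hcl] at this

section
variable (S : AddSubmonoid ℕ)

/-- Extension by zero. -/
noncomputable def ext0 : (gens S →₀ ℕ) →+ FM := Finsupp.mapDomain.addMonoidHom Subtype.val

/-- Restriction to the generators. -/
noncomputable def res : FM →+ (gens S →₀ ℕ) := Finsupp.subtypeDomainAddMonoidHom

theorem res_ext0 (a : gens S →₀ ℕ) : res S (ext0 S a) = a := by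
  ext x
  exact Finsupp.mapDomain_apply Subtype.val_injective a x

theorem ext0_supp (a : gens S →₀ ℕ) : (ext0 S a).support ⊆ (gens_finite S).toFinset := by
  intro x hx
  obtain ⟨y, -, rfl⟩ := mem_image.1 (Finsupp.mapDomain_support hx)
  exact (Set.Finite.mem_toFinset _).2 y.2

theorem ext0_res {a : FM} (h : a.support ⊆ (gens_finite S).toFinset) :
    ext0 S (res S a) = a := by
  refine (Finsupp.subtypeDomain_eq_iff (p := (· ∈ gens S))
    (fun x hx => (Set.Finite.mem_toFinset _).1 (ext0_supp S _ hx))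
    (fun x hx => (Set.Finite.mem_toFinset _).1 (h hx))).1 (res_ext0 S _)

theorem wt_ext0 (a : gens S →₀ ℕ) :
    wt (ext0 S a) = Finsupp.weight (fun x : gens S => (x : ℕ)) a := by
  rw [wt, Finsupp.weight_apply, Finsupp.weight_apply]
  exact Finsupp.sum_mapDomain_index_inj Subtype.val_injective

theorem pres_of_isPresentation {τ : Set ((gens S →₀ ℕ) × (gens S →₀ ℕ))}
    (h : IsPresentation S τ) (hf : τ.Finite) :
    ∃ σ, Pres (gens_finite S).toFinset σ ∧ σ.card ≤ hf.toFinset.card := by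
  classical
  refine ⟨hf.toFinset.image fun t => (ext0 S t.1, ext0 S t.2), ⟨fun r hr => ?_,
    fun a b ha hb hab => ?_⟩, card_image_le⟩
  · obtain ⟨t, ht, rfl⟩ := mem_image.1 hr
    refine ⟨ext0_supp S _, ext0_supp S _, ?_⟩
    have : addConGen (fun a b => (a, b) ∈ τ) t.1 t.2 :=
      AddConGen.Rel.of _ _ ((Set.Finite.mem_toFinset _).1 ht)
    rw [h, AddCon.ker_rel] at this
    simp only [wt_ext0, this]
  · have h1 : addConGen (fun a b => (a, b) ∈ τ) (res S a) (res S b) := by
      rw [h, AddCon.ker_rel, ← wt_ext0, ← wt_ext0, ext0_res S ha, ext0_res S hb, hab]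
    have h2 := (AddCon.addConGen_le.2 (fun p q hpq => by
      exact Gen.of (r := (ext0 S p, ext0 S q))
        (mem_image_of_mem _ ((Set.Finite.mem_toFinset _).2 hpq))) :
      addConGen (fun a b => (a, b) ∈ τ) ≤ AddCon.comap (ext0 S) (map_add _)
        (Gen (hf.toFinset.image fun t => (ext0 S t.1, ext0 S t.2)))) h1
    rwa [AddCon.comap_rel, ext0_res S ha, ext0_res S hb] at h2

theorem isPresentation_of_pres {σ : Finset (FM × FM)} (h : Pres (gens_finite S).toFinset σ) :
    IsPresentation S ((fun r => (res S r.1, res S r.2)) '' (σ : Set (FM × FM))) := by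
  refine le_antisymm (AddCon.addConGen_le.2 ?_) fun a b hab => ?_
  · rintro a b ⟨r, hr, e⟩
    obtain ⟨rfl, rfl⟩ := Prod.mk.inj e
    obtain ⟨h1, h2, h3⟩ := h.supp r hr
    change AddCon.ker _ _ _
    rw [AddCon.ker_rel, ← wt_ext0, ← wt_ext0, ext0_res S h1, ext0_res S h2, h3]
  · rw [AddCon.ker_rel, ← wt_ext0, ← wt_ext0] at hab
    have := Gen.le (AddCon.comap (res S) (map_add _) (addConGen fun a b =>
      (a, b) ∈ (fun r => (res S r.1, res S r.2)) '' (σ : Set (FM × FM))))
      (fun r hr => AddConGen.Rel.of _ _ ⟨r, hr, rfl⟩)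
      (h.gen _ _ (ext0_supp S a) (ext0_supp S b) hab)
    rwa [AddCon.comap_rel, res_ext0, res_ext0] at this

end

theorem IsCI.glued {S : AddSubmonoid ℕ} (h : IsCI S) : Glued (gens_finite S).toFinset := by
  obtain ⟨-, τ, hτ, -, hc⟩ := h
  have hf : τ.Finite := Set.finite_of_encard_le_coe (k := (gens_finite S).toFinset.card) (by
    rw [← (gens_finite S).encard_eq_coe_toFinset_card, ← hc]; exact le_self_add)
  obtain ⟨σ, hσ, hle⟩ := pres_of_isPresentation S hτ hf
  rw [(gens_finite S).encard_eq_coe_toFinset_card, hf.encard_eq_coe_toFinset_card] at hc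
  refine glued_of_pres _ _ σ rfl (fun e => ((Set.Finite.mem_toFinset _).1 e).2.1 rfl) hσ ?_
  have : hf.toFinset.card + 1 = (gens_finite S).toFinset.card := by exact_mod_cast hc
  omega

theorem Glued.isCI {A : Finset ℕ} (h : Glued A)
    (hn : IsNumerical (AddSubmonoid.closure (A : Set ℕ))) :
    IsCI (AddSubmonoid.closure (A : Set ℕ)) := by
  obtain ⟨σ0, h1, h2⟩ := pres_of_glued h
  obtain ⟨σ, hσ, hlt⟩ := pres_gens _ A σ0 rfl h.zero_notMem h1 h2
  set S := AddSubmonoid.closure (A : Set ℕ)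
  have low : ∀ τ, IsPresentation S τ → (gens S).encard ≤ τ.encard + 1 := fun τ hτ => by
    by_cases hf : τ.Finite
    · obtain ⟨ρ, hρ, hle⟩ := pres_of_isPresentation S hτ hf
      have := hρ.card_le fun e => ((Set.Finite.mem_toFinset _).1 e).2.1 rfl
      rw [(gens_finite S).encard_eq_coe_toFinset_card, hf.encard_eq_coe_toFinset_card]
      exact_mod_cast (by omega : (gens_finite S).toFinset.card ≤ hf.toFinset.card + 1)
    · simp [Set.Infinite.encard_eq hf]
  have up : ((fun r => (res S r.1, res S r.2)) '' (σ : Set (FM × FM))).encard + 1 ≤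
      (gens S).encard := by
    refine (add_le_add_left (Set.encard_image_le _ _) 1).trans ?_
    rw [(gens_finite S).encard_eq_coe_toFinset_card, Set.encard_coe_eq_coe_finsetCard]
    exact_mod_cast hlt
  exact ⟨hn, _, isPresentation_of_pres S hσ, fun τ hτ =>
    (ENat.add_le_add_iff_right ENat.one_ne_top).1 (up.trans (low τ hτ)),
    le_antisymm up (low _ (isPresentation_of_pres S hσ))⟩

end Pool.Agent.Lib.MP_71c87b_al
end

-- part Pool.Agent.Lib.MP_71c87b_al.Keep
section

/-!
# Bounding the generators which matter below a given level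
-/

namespace Pool.Agent.Lib.MP_71c87b_al

open Finset

theorem exists_le_of_mem {C : Finset ℕ} {y : ℕ} (hy : y ∈ AddSubmonoid.closure (C : Set ℕ))
    (h0 : y ≠ 0) : ∃ c ∈ C, c ≤ y := by
  obtain ⟨a, ha, rfl⟩ := exists_wt hy
  obtain ⟨x, hx⟩ := Finsupp.support_nonempty_iff.2 (fun e => h0 (by simp [e]) : a ≠ 0)
  exact ⟨x, ha hx, le_wt hx⟩

theorem Glued.gcd_pos {A : Finset ℕ} (h : Glued A) : 0 < A.gcd id := by
  obtain ⟨a, ha⟩ := h.nonempty
  exact Nat.pos_of_dvd_of_pos (Finset.gcd_dvd (f := id) ha)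
    (Nat.pos_of_ne_zero fun e : a = 0 => h.zero_notMem (e ▸ ha))

theorem Glued.gcd_le {A : Finset ℕ} (h : Glued A) {a : ℕ} (ha : a ∈ A) : A.gcd id ≤ a :=
  Nat.le_of_dvd (Nat.pos_of_ne_zero fun e : a = 0 => h.zero_notMem (e ▸ ha))
    (Finset.gcd_dvd (f := id) ha)

theorem gcd_union_mul (B C : Finset ℕ) :
    (B ∪ C).gcd id * Nat.lcm (B.gcd id) (C.gcd id) = B.gcd id * C.gcd id := by
  rw [Finset.gcd_union, gcd_eq_nat_gcd, Nat.gcd_mul_lcm]

theorem mem_closure_of_lt {B C : Finset ℕ} {L y : ℕ} (hC : ∀ c ∈ C, L < c)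
    (hy : y ∈ AddSubmonoid.closure ((B ∪ C : Finset ℕ) : Set ℕ)) (h : y ≤ L) :
    y ∈ AddSubmonoid.closure (B : Set ℕ) := by
  obtain ⟨a, ha, rfl⟩ := exists_wt hy
  exact wt_mem fun i hi => (mem_union.1 (ha hi)).resolve_right fun e =>
    absurd (hC i e) (not_lt.2 ((le_wt hi).trans h))

theorem keep_bound {B C : Finset ℕ} (gB : Glued B) (gC : Glued C)
    (hB : Nat.lcm (B.gcd id) (C.gcd id) ∈ AddSubmonoid.closure (B : Set ℕ)) {L x : ℕ}
    (sB : ∃ b ∈ B, b ≤ L) (sC : ∃ c ∈ C, c ≤ L)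
    (h : ∀ a ∈ B, x * B.gcd id ≤ a * max L (Nat.lcm (B.gcd id) (C.gcd id))) :
    ∀ a ∈ B ∪ C, x * (B ∪ C).gcd id ≤ a * L := by
  intro a ha
  have e := gcd_union_mul B C
  have pB := gB.gcd_pos
  have pC := gC.gcd_pos
  have hl : Nat.lcm (B.gcd id) (C.gcd id) ≠ 0 := (Nat.lcm_pos pB pC).ne'
  have dB : (B ∪ C).gcd id ≤ B.gcd id :=
    Nat.le_of_dvd pB (Finset.gcd_mono subset_union_left)
  set l := Nat.lcm (B.gcd id) (C.gcd id)
  set d := (B ∪ C).gcd id
  obtain ⟨b, hb, hbL⟩ := sB
  obtain ⟨c, hc, hcL⟩ := sC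
  refine Nat.le_of_mul_le_mul_right ?_ pB
  rcases le_total l L with hL | hL
  · rw [max_eq_left hL] at h
    rcases mem_union.1 ha with ha | ha
    · calc x * d * B.gcd id = x * B.gcd id * d := by ring
        _ ≤ a * L * B.gcd id := Nat.mul_le_mul (h a ha) dB
    · obtain ⟨b', hb', hbl⟩ := exists_le_of_mem hB hl
      calc x * d * B.gcd id = x * B.gcd id * d := by ring
        _ ≤ b' * L * d := Nat.mul_le_mul_right _ (h b' hb')
        _ ≤ l * L * d := by gcongr
        _ = C.gcd id * L * B.gcd id := by rw [mul_right_comm, mul_comm l, e]; ring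
        _ ≤ a * L * B.gcd id := by gcongr; exact gC.gcd_le ha
  · rw [max_eq_right hL] at h
    rcases mem_union.1 ha with ha | ha
    · calc x * d * B.gcd id = x * B.gcd id * d := by ring
        _ ≤ a * l * d := Nat.mul_le_mul_right _ (h a ha)
        _ = a * C.gcd id * B.gcd id := by rw [mul_assoc, mul_comm l, e]; ring
        _ ≤ a * L * B.gcd id := by gcongr; exact (gC.gcd_le hc).trans hcL
    · calc x * d * B.gcd id = x * B.gcd id * d := by ring
        _ ≤ b * l * d := Nat.mul_le_mul_right _ (h b hb)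
        _ = C.gcd id * b * B.gcd id := by rw [mul_assoc, mul_comm l, e]; ring
        _ ≤ a * L * B.gcd id := by gcongr; exact gC.gcd_le ha

theorem Glued.keep {A : Finset ℕ} (h : Glued A) : ∀ L, (∃ a ∈ A, a ≤ L) →
    ∃ A' ⊆ A, Glued A' ∧
      (∀ y ∈ AddSubmonoid.closure (A : Set ℕ), y ≤ L → y ∈ AddSubmonoid.closure (A' : Set ℕ)) ∧
      ∀ x ∈ A', ∀ a ∈ A, x * A.gcd id ≤ a * L := by
  induction h with
  | single a ha =>
    rintro L ⟨b, hb, hL⟩
    rw [mem_singleton] at hb
    exact ⟨{a}, subset_rfl, Glued.single a ha, fun y hy _ => hy, by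
      simpa using Nat.mul_le_mul_left a (hb ▸ hL)⟩
  | glue B C gB gC hd hB hC ihB ihC =>
    intro L hL
    have one : ∀ {B C : Finset ℕ}, Glued B → (∀ c ∈ C, L < c) → (∃ b ∈ B, b ≤ L) →
        (∃ A' ⊆ B, Glued A' ∧ (∀ y ∈ AddSubmonoid.closure (B : Set ℕ), y ≤ L →
          y ∈ AddSubmonoid.closure (A' : Set ℕ)) ∧
          ∀ x ∈ A', ∀ a ∈ B, x * B.gcd id ≤ a * L) →
        ∃ A' ⊆ B ∪ C, Glued A' ∧ (∀ y ∈ AddSubmonoid.closure ((B ∪ C : Finset ℕ) : Set ℕ),
          y ≤ L → y ∈ AddSubmonoid.closure (A' : Set ℕ)) ∧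
          ∀ x ∈ A', ∀ a ∈ B ∪ C, x * (B ∪ C).gcd id ≤ a * L := by
      rintro B C gB hC ⟨b, hb, hbL⟩ ⟨A', h1, h2, h3, h4⟩
      refine ⟨A', h1.trans subset_union_left, h2,
        fun y hy hyL => h3 y (mem_closure_of_lt hC hy hyL) hyL, fun x hx a ha => ?_⟩
      refine (Nat.mul_le_mul_left x (Nat.le_of_dvd gB.gcd_pos
        (Finset.gcd_mono subset_union_left))).trans ?_
      rcases mem_union.1 ha with ha | ha
      · exact h4 x hx a ha
      · exact (h4 x hx b hb).trans (Nat.mul_le_mul_right _ (hbL.trans (hC a ha).le))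
    by_cases sC : ∃ c ∈ C, c ≤ L
    swap
    · push Not at sC
      have sB : ∃ b ∈ B, b ≤ L := by
        obtain ⟨a, ha, haL⟩ := hL
        exact ⟨a, (mem_union.1 ha).resolve_right fun e => absurd (sC a e) (not_lt.2 haL), haL⟩
      exact one gB sC sB (ihB L sB)
    by_cases sB : ∃ b ∈ B, b ≤ L
    swap
    · push Not at sB
      rw [union_comm]
      exact one gC sB sC (ihC L sC)
    set l := Nat.lcm (B.gcd id) (C.gcd id) with hl
    obtain ⟨B', b1, b2, b3, b4⟩ := ihB (max L l) (by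
      obtain ⟨b, hb, h⟩ := sB; exact ⟨b, hb, h.trans (le_max_left _ _)⟩)
    obtain ⟨C', c1, c2, c3, c4⟩ := ihC (max L l) (by
      obtain ⟨b, hb, h⟩ := sC; exact ⟨b, hb, h.trans (le_max_left _ _)⟩)
    have hB' := b3 l hB (le_max_right _ _)
    have hC' := c3 l hC (le_max_right _ _)
    have hl' : Nat.lcm (B'.gcd id) (C'.gcd id) = l :=
      Nat.dvd_antisymm (Nat.lcm_dvd (gcd_dvd_of_mem hB') (gcd_dvd_of_mem hC'))
        (Nat.lcm_dvd ((Finset.gcd_mono b1).trans (Nat.dvd_lcm_left _ _))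
          ((Finset.gcd_mono c1).trans (Nat.dvd_lcm_right _ _)))
    refine ⟨B' ∪ C', union_subset_union b1 c1,
      Glued.glue _ _ b2 c2 (hd.mono b1 c1) (hl' ▸ hB') (hl' ▸ hC'), fun y hy hyL => ?_,
      fun x hx => ?_⟩
    · rw [coe_union, AddSubmonoid.closure_union] at hy ⊢
      obtain ⟨p, hp, q, hq, rfl⟩ := AddSubmonoid.mem_sup.1 hy
      exact AddSubmonoid.mem_sup.2 ⟨p, b3 p hp (by omega), q, c3 q hq (by omega), rfl⟩
    · rcases mem_union.1 hx with hx | hx
      · exact keep_bound gB gC hB sB sC (b4 x hx)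
      · rw [union_comm]
        exact keep_bound gC gB (Nat.lcm_comm _ _ ▸ hC) sC sB (Nat.lcm_comm _ _ ▸ c4 x hx)

theorem Glued.two_pow {S : AddSubmonoid ℕ} {A : Finset ℕ} (h : Glued A) :
    (∀ x ∈ A, x ∈ gens S) → ∀ a ∈ A, 2 ^ A.card * A.gcd id ≤ 2 * a := by
  induction h with
  | single a ha => simp
  | glue B C gB gC hd hB hC ihB ihC =>
    intro hg
    have key : ∀ {B C : Finset ℕ}, Glued B → Glued C → Disjoint B C →
        (∀ x ∈ B ∪ C, x ∈ gens S) →
        Nat.lcm (B.gcd id) (C.gcd id) ∈ AddSubmonoid.closure (B : Set ℕ) →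
        Nat.lcm (B.gcd id) (C.gcd id) ∈ AddSubmonoid.closure (C : Set ℕ) →
        (∀ a ∈ B, 2 ^ B.card * B.gcd id ≤ 2 * a) → (∀ a ∈ C, 2 ^ C.card * C.gcd id ≤ 2 * a) →
        ∀ a ∈ B, 2 ^ (B ∪ C).card * (B ∪ C).gcd id ≤ 2 * a := by
      intro B C gB gC hd hg hB hC ihB ihC a ha
      have e := gcd_union_mul B C
      have hl : Nat.lcm (B.gcd id) (C.gcd id) ≠ 0 := (Nat.lcm_pos gB.gcd_pos gC.gcd_pos).ne'
      set l := Nat.lcm (B.gcd id) (C.gcd id)
      have hle : AddSubmonoid.closure (B : Set ℕ) ≤ S :=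
        AddSubmonoid.closure_le.2 fun x hx => (hg x (mem_union_left _ hx)).1
      have hlC : l ∉ gens (AddSubmonoid.closure (C : Set ℕ)) := fun h => by
        have h1 : l ∈ C := gens_subset h
        have h2 := hg l (mem_union_right _ h1)
        exact disjoint_left.1 hd (gens_subset
          ⟨hB, hl, fun y hy z hz => h2.2.2 y (hle hy) z (hle hz)⟩) h1
      simp only [gens, Set.mem_ofPred_eq, hC, hl, true_and, ne_eq, not_false_eq_true] at hlC
      push Not at hlC
      obtain ⟨y, hy, z, hz, e', h1, h2⟩ := hlC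
      obtain ⟨c, hc, hcy⟩ := exists_le_of_mem hy h1
      obtain ⟨c', hc', hcz⟩ := exists_le_of_mem hz h2
      have h3 : 2 ^ C.card * C.gcd id ≤ l := by
        have := ihC c hc
        have := ihC c' hc'
        omega
      have h4 : 2 ^ C.card * (B ∪ C).gcd id ≤ B.gcd id := by
        refine Nat.le_of_mul_le_mul_right ?_ gC.gcd_pos
        rw [← e, mul_right_comm, mul_comm]
        exact Nat.mul_le_mul_left _ h3
      rw [card_union_of_disjoint hd, pow_add, mul_assoc]
      exact (Nat.mul_le_mul_left _ h4).trans (ihB a ha)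
    have iB := ihB fun x hx => hg x (mem_union_left _ hx)
    have iC := ihC fun x hx => hg x (mem_union_right _ hx)
    intro a ha
    rcases mem_union.1 ha with ha | ha
    · exact key gB gC hd hg hB hC iB iC a ha
    · rw [union_comm] at hg ⊢
      exact key gC gB hd.symm hg (Nat.lcm_comm _ _ ▸ hC) (Nat.lcm_comm _ _ ▸ hB) iC iB a ha

theorem Glued.extend {A : Finset ℕ} (h : Glued A) (g : ℕ) :
    ∃ S, IsCI S ∧ AddSubmonoid.closure (A : Set ℕ) ≤ S ∧
      ∀ y ∈ S, y ≤ g → y ∈ AddSubmonoid.closure (A : Set ℕ) := by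
  obtain ⟨n, hn⟩ := exists_big A
  have pA := h.gcd_pos
  set x := (n + g + A.sup id) * A.gcd id + 1 with hx
  have hle : n + g + A.sup id ≤ (n + g + A.sup id) * A.gcd id := Nat.le_mul_of_pos_right _ pA
  have hxA : x ∉ A := fun e => by
    have : x ≤ A.sup id := le_sup (f := id) e
    omega
  have hg : ({x} : Finset ℕ).gcd id = x := by simp
  have gl : Glued (A ∪ {x}) := Glued.glue _ _ h (Glued.single x (by omega)) (by simpa)
    (hn _ (by
      rw [hg]
      have := Nat.le_of_dvd (Nat.lcm_pos pA (by omega)) (Nat.dvd_lcm_right (A.gcd id) x)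
      omega) (Nat.dvd_lcm_left _ _))
    (by
      rw [hg, coe_singleton, AddSubmonoid.mem_closure_singleton]
      obtain ⟨k, hk⟩ := Nat.dvd_lcm_right (A.gcd id) x
      exact ⟨k, by rw [hk, smul_eq_mul, mul_comm]⟩)
  refine ⟨_, gl.isCI ?_, AddSubmonoid.closure_mono (coe_subset.2 subset_union_left),
    fun y hy hyg => mem_closure_of_lt (L := g) (fun c hc => ?_) hy hyg⟩
  · obtain ⟨m, hm⟩ := exists_big (A ∪ {x})
    have h1 : (A ∪ {x}).gcd id = 1 := by
      rw [Finset.gcd_union, gcd_eq_nat_gcd, hg, hx, Nat.gcd_mul_right_add_right, Nat.gcd_one_right]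
    exact (Set.finite_lt_nat m).subset fun y hy =>
      not_le.1 fun e => hy (hm y e (h1 ▸ one_dvd _))
  · rw [mem_singleton] at hc
    omega

end Pool.Agent.Lib.MP_71c87b_al
end

-- part Pool.Agent.Lib.MP_71c87b_al.Variety
section

/-!
# The variety generated by complete intersections, gap by gap
-/

namespace Pool.Agent.Lib.MP_71c87b_al

/-- The gap `g` is separated from the smaller elements of `T` by a complete intersection. -/
def Sep (T : AddSubmonoid ℕ) (g : ℕ) : Prop :=
  ∃ S, IsCI S ∧ (∀ t ∈ T, t < g → t ∈ S) ∧ g ∉ S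

/-- `S` together with all integers larger than `g`. -/
def trunc (S : AddSubmonoid ℕ) (g : ℕ) : AddSubmonoid ℕ where
  carrier := {x | x ∈ S ∨ g < x}
  zero_mem' := Or.inl S.zero_mem
  add_mem' := by
    rintro a b (ha | ha) (hb | hb)
    · exact Or.inl (S.add_mem ha hb)
    all_goals exact Or.inr (by omega)

theorem mem_trunc {S : AddSubmonoid ℕ} {g x : ℕ} : x ∈ trunc S g ↔ x ∈ S ∨ g < x := Iff.rfl

theorem IsFrobeniusVariety.trunc_mem {V : Set (AddSubmonoid ℕ)} (hV : IsFrobeniusVariety V)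
    {S : AddSubmonoid ℕ} (hS : S ∈ V) (g : ℕ) : trunc S g ∈ V := by
  obtain ⟨N, hN⟩ := (hV.numerical S hS).bddAbove
  suffices ∀ j k, N ≤ k + j → trunc S k ∈ V from this N g (by omega)
  intro j
  induction j with
  | zero =>
    intro k hk
    have : trunc S k = S := by
      ext x
      exact ⟨fun h => h.elim id fun h => by_contra fun e => by have := hN e; omega, Or.inl⟩
    rwa [this]
  | succ j ih =>
    intro k hk
    have h1 := ih (k + 1) (by omega)
    by_cases h : k + 1 ∈ S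
    · have : trunc S k = trunc S (k + 1) := by
        ext x
        simp only [mem_trunc]
        refine ⟨fun e => e.elim Or.inl fun e => ?_, fun e => e.imp id (by omega)⟩
        by_cases e' : x = k + 1
        exacts [Or.inl (e' ▸ h), Or.inr (by omega)]
      rwa [this]
    · refine hV.frob _ h1 (k + 1) ⟨fun e => e.elim h (lt_irrefl _), fun x hx =>
        not_lt.1 fun e => hx (Or.inr e)⟩ _ ?_
      ext x
      simp only [SetLike.mem_coe, mem_trunc, Set.mem_insert_iff]
      by_cases hx : x ∈ S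
      · simp [hx]
      · simp only [hx, false_or]; omega

theorem mem_VCI {T : AddSubmonoid ℕ} : T ∈ VCI ↔ IsNumerical T ∧ ∀ g, g ∉ T → Sep T g := by
  constructor
  · intro h
    refine h {T | IsNumerical T ∧ ∀ g, g ∉ T → Sep T g} ⟨⟨⟨⊤, by simp [IsNumerical]⟩,
      fun S hS => hS.1, fun S hS T hT => ⟨?_, fun g hg => ?_⟩,
      fun S hS f hf T hT => ⟨?_, fun g hg => ?_⟩⟩,
      fun S hS => ⟨hS.1, fun g hg => ⟨S, hS, fun t ht _ => ht, hg⟩⟩⟩
    · simpa [IsNumerical, Set.compl_inter] using ⟨hS.1, hT.1⟩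
    · rcases not_and_or.1 hg with hg | hg
      · obtain ⟨U, h1, h2, h3⟩ := hS.2 g hg
        exact ⟨U, h1, fun t ht => h2 t ht.1, h3⟩
      · obtain ⟨U, h1, h2, h3⟩ := hT.2 g hg
        exact ⟨U, h1, fun t ht => h2 t ht.2, h3⟩
    · exact hS.1.subset (hT ▸ Set.compl_subset_compl.2 (Set.subset_insert _ _))
    · have hg' : g ∉ insert f (S : Set ℕ) := hT ▸ hg
      obtain ⟨U, h1, h2, h3⟩ := hS.2 g fun e => hg' (Or.inr e)
      refine ⟨U, h1, fun t ht htg => h2 t ?_ htg, h3⟩
      have ht' : t ∈ insert f (S : Set ℕ) := hT ▸ ht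
      have := hf.2 (fun e => hg' (Or.inr e) : g ∈ (S : Set ℕ)ᶜ)
      exact ht'.resolve_left (by omega)
  · rintro ⟨hT, h⟩ V ⟨hV, hCI⟩
    have key : ∀ F : Finset ℕ, (∀ g ∈ F, g ∉ T) → ∃ U ∈ V, T ≤ U ∧ ∀ g ∈ F, g ∉ U := by
      intro F
      induction F using Finset.induction_on with
      | empty =>
        obtain ⟨S, hS⟩ := hV.nonempty
        exact fun _ => ⟨_, hV.trunc_mem hS 0, fun x _ =>
          (Nat.eq_zero_or_pos x).imp_left fun e : x = 0 => e ▸ S.zero_mem, by simp⟩
      | insert g F _ ih =>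
        intro hF
        obtain ⟨U, h1, h2, h3⟩ := ih fun x hx => hF x (Finset.mem_insert_of_mem hx)
        have hg := hF g (Finset.mem_insert_self _ _)
        obtain ⟨S, s1, s2, s3⟩ := h g hg
        refine ⟨_, hV.inter _ h1 _ (hV.trunc_mem (hCI S s1) g), fun t ht => ⟨h2 ht, ?_⟩,
          fun x hx e => ?_⟩
        · rcases lt_trichotomy t g with e | e | e
          exacts [Or.inl (s2 t ht e), absurd (e ▸ ht) hg, Or.inr e]
        · rcases Finset.mem_insert.1 hx with rfl | hx
          exacts [e.2.elim s3 (lt_irrefl _), h3 x hx e.1]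
    obtain ⟨U, h1, h2, h3⟩ := key hT.toFinset fun g hg => (Set.Finite.mem_toFinset _).1 hg
    have : U = T := le_antisymm (fun x hx => by_contra fun e =>
      h3 x ((Set.Finite.mem_toFinset _).2 e) hx) h2
    exact this ▸ h1

theorem sep_of_special {T : AddSubmonoid ℕ} (hT : IsNumerical T)
    (h : ∀ g, IsSpecialGap T g → Sep T g) (g : ℕ) (hg : g ∉ T) : Sep T g := by
  obtain ⟨N, hN⟩ := hT.bddAbove
  induction hk : N - g using Nat.strong_induction_on generalizing g with
  | _ k ih =>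
  have h0 : g ≠ 0 := fun e => hg (e ▸ T.zero_mem)
  by_cases h2 : 2 * g ∈ T
  · by_cases h3 : ∀ t ∈ T, t ≠ 0 → g + t ∈ T
    · exact h g ⟨hg, h2, h3⟩
    push Not at h3
    obtain ⟨t, ht, ht0, h3⟩ := h3
    have := hN h3
    obtain ⟨S, s1, s2, s3⟩ := ih _ (by omega) (g + t) h3 rfl
    exact ⟨S, s1, fun x hx e => s2 x hx (by omega),
      fun e => s3 (S.add_mem e (s2 t ht (by omega)))⟩
  · have := hN h2
    obtain ⟨S, s1, s2, s3⟩ := ih _ (by omega) (2 * g) h2 rfl
    exact ⟨S, s1, fun x hx e => s2 x hx (by omega), fun e => s3 (two_mul g ▸ S.add_mem e e)⟩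

theorem Glued.sep {A : Finset ℕ} (h : Glued A) {T : AddSubmonoid ℕ} {g : ℕ}
    (h1 : ∀ t ∈ T, t < g → t ∈ AddSubmonoid.closure (A : Set ℕ))
    (h2 : g ∉ AddSubmonoid.closure (A : Set ℕ)) : Sep T g := by
  obtain ⟨S, s1, s2, s3⟩ := h.extend g
  exact ⟨S, s1, fun t ht e => s2 (h1 t ht e), fun e => h2 (s3 g e le_rfl)⟩

end Pool.Agent.Lib.MP_71c87b_al
end
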